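import Pool.Agent.W402.HI.Defs2

/-!
Project HI: assembly of the final theorems from the parts.
-/

set_option autoImplicit false

open Filter Topology MeasureTheory Metric

namespace Pool.Agent.W402.HI.Asm

theorem curve_compact (γ : ℝ → ℂ) (L : NNReal) (hγ : LipschitzWith L γ) :
    IsCompact (γ '' Set.Icc 0 1) ∧ (γ '' Set.Icc 0 1).Nonempty :=
  ⟨isCompact_Icc.image hγ.continuous, ⟨γ 0, 0, by simp, rfl⟩⟩

theorem not_scalar {X : Type} [NormedAddCommGroup X] [NormedSpace ℂ X] [CompleteSpace X]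
    (T : X →L[ℂ] X) (h : (spectrum ℂ T).Nontrivial) : ¬ IsScalar T := by
  rintro ⟨c, rfl⟩
  obtain ⟨x, hx, y, hy, hxy⟩ := h
  have key : ∀ x ∈ spectrum ℂ (c • (1 : X →L[ℂ] X)), x = c := by
    intro x hx
    by_contra hne
    apply hx
    have h0 : x - c ≠ 0 := sub_ne_zero.2 hne
    change IsUnit (algebraMap ℂ (X →L[ℂ] X) x - c • 1)
    rw [Algebra.algebraMap_eq_smul_one, ← sub_smul, ← Algebra.algebraMap_eq_smul_one]
    exact (isUnit_iff_ne_zero.2 h0).map (algebraMap ℂ (X →L[ℂ] X))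
  exact hxy ((key x hx).trans (key y hy).symm)

/-- the perturbation theorem on Banach spaces -/
theorem perturb (hH : P_H2) (h3 : P_E3L) (h4 : P_E4) (h5 : P_E5) (h6 : P_E5L)
    (X : Type) [NormedAddCommGroup X] [NormedSpace ℂ X] [CompleteSpace X]
    (S K : X →L[ℂ] X) (γ : ℝ → ℂ) (L : NNReal) (hγ : LipschitzWith L γ) (U : Set ℂ)
    (hU : IsOpen U) (hK : ApproxDecay K)
    (hS : ∃ (C : ℝ) (k : ℕ), ∀ z ∈ U, z ∉ γ '' Set.Icc 0 1 → z ∈ resolventSet ℂ S ∧
      ‖resolvent S z‖ ≤ C / infDist z (γ '' Set.Icc 0 1) ^ k)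
    (hp : ∃ p ∈ spectrum ℂ (S + K), p ∈ U) (hn : (spectrum ℂ (S + K)).Nontrivial) :
    HasHyp (S + K) := by
  obtain ⟨hc, hne⟩ := curve_compact γ L hγ
  by_cases h : ∀ z ∈ spectrum ℂ (S + K), z ∈ U → z ∈ γ '' Set.Icc 0 1
  · obtain ⟨C, p, hC⟩ := h6 X S K _ U hc hne hK hS
    exact hH X (S + K) γ L hγ U hU h hp hn (h3 X S K _ U C p hc hU hC h)
  · push Not at h
    obtain ⟨z, hz, hzU, hzE⟩ := h
    obtain ⟨C, k, hC⟩ := hS
    exact h4 X S K (h5 X S K _ hc hne hK).1 (not_scalar _ hn) z (hC z hzU hzE).1 hz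

/-- the growth theorem -/
theorem growth (hH : P_H2) (h3 : P_H3)
    (X : Type) [NormedAddCommGroup X] [NormedSpace ℂ X] [CompleteSpace X]
    (T : X →L[ℂ] X) (γ : ℝ → ℂ) (L : NNReal) (hγ : LipschitzWith L γ) (U : Set ℂ)
    (hU : IsOpen U)
    (hT : ∃ (C : ℝ) (k : ℕ), ∀ z ∈ U, z ∉ γ '' Set.Icc 0 1 → z ∈ resolventSet ℂ T ∧
      ‖resolvent T z‖ ≤ Real.exp (C / infDist z (γ '' Set.Icc 0 1) ^ k))
    (hp : ∃ p ∈ spectrum ℂ T, p ∈ U) (hn : (spectrum ℂ T).Nontrivial) :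
    HasHyp T := by
  obtain ⟨hc, hne⟩ := curve_compact γ L hγ
  obtain ⟨C, k, hC⟩ := hT
  refine hH X T γ L hγ U hU (fun z hz hzU => ?_) hp hn ⟨k, ?_⟩
  · by_contra hE
    exact hz (hC z hzU hE).1
  · exact h3 (fun z => ‖resolvent T z‖) _ U C k hc hU (fun z hz hzE => (hC z hz hzE).2)

/-- `HasHyp` is invariant under adding a scalar -/
theorem hasHyp_sub {X : Type} [NormedAddCommGroup X] [NormedSpace ℂ X] (T : X →L[ℂ] X) (c : ℂ)
    (h : HasHyp (T - c • (1 : X →L[ℂ] X))) : HasHyp T := by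
  obtain ⟨V, h1, h2, h3, h4⟩ := h
  refine ⟨V, h1, h2, h3, fun Q hQ => h4 Q ?_⟩
  rw [mul_sub, sub_mul, hQ]
  simp

/-- perturbations of normal operators -/
theorem normal (hH : P_H2) (h3 : P_E3L) (h4 : P_E4) (h5 : P_E5) (h6 : P_E5L)
    (g1 : P_G1) (g2 : P_G2) (g3 : P_G3)
    (H : Type) [NormedAddCommGroup H] [InnerProductSpace ℂ H] [CompleteSpace H]
    (N K : H →L[ℂ] H) (hN : IsStarNormal N) (γ : ℝ → ℂ) (L : NNReal) (hγ : LipschitzWith L γ)
    (U : Set ℂ) (hU : IsOpen U) (hNE : ∀ z ∈ spectrum ℂ N, z ∈ U → z ∈ γ '' Set.Icc 0 1)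
    (hK : ApproxDecay K) (hp : ∃ p ∈ spectrum ℂ (N + K), p ∈ U) (hn : ¬ IsScalar (N + K)) :
    HasHyp (N + K) := by
  obtain ⟨hc, hne⟩ := curve_compact γ L hγ
  obtain ⟨p, hpσ, hpU⟩ := hp
  have hKc : IsCompactOperator K := (h5 H N K _ hc hne hK).1
  have hnt : Nontrivial H := by
    by_contra hh
    rw [not_nontrivial_iff_subsingleton] at hh
    exact hn ⟨0, by ext x; exact Subsingleton.elim _ _⟩
  by_cases hs : (spectrum ℂ (N + K)).Nontrivial
  · obtain ⟨r, hr, hrU⟩ := Metric.isOpen_iff.1 hU p hpU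
    have hσc : IsCompact (spectrum ℂ N) := spectrum.isCompact N
    have hσn : (spectrum ℂ N).Nonempty := spectrum.nonempty N
    obtain ⟨e, he⟩ := hne
    set E := γ '' Set.Icc 0 1 with hE
    set C : ℝ := 1 + (2 / r) * (‖p - e‖ + r) with hCdef
    have hCpos : 0 ≤ (2 / r) * (‖p - e‖ + r) := by positivity
    refine perturb hH h3 h4 h5 h6 H N K γ L hγ (ball p (r / 2)) isOpen_ball hK ⟨C, 1, ?_⟩
      ⟨p, hpσ, mem_ball_self (by positivity)⟩ hs
    intro z hz hzE
    have hzU : z ∈ U := hrU (ball_subset_ball (by linarith) hz)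
    have hzσ : z ∉ spectrum ℂ N := fun h => hzE (hNE z h hzU)
    obtain ⟨hz1, hz2⟩ := g3 H N (spectrum ℂ N) hN hσc hσn le_rfl z hzσ
    refine ⟨hz1, hz2.trans ?_⟩
    have hd : 0 < infDist z E := (hc.isClosed.notMem_iff_infDist_pos ⟨e, he⟩).1 hzE
    have hdle : infDist z E ≤ ‖p - e‖ + r := by
      calc infDist z E ≤ dist z e := infDist_le_dist_of_mem he
        _ ≤ dist z p + dist p e := dist_triangle _ _ _
        _ ≤ r + ‖p - e‖ := by
            rw [dist_eq_norm p e]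
            have := (mem_ball.1 hz).le
            linarith
        _ = _ := by ring
    have hmin : min (infDist z E) (r / 2) ≤ infDist z (spectrum ℂ N) := by
      refine (le_infDist hσn).2 fun w hw => ?_
      by_cases hwU : w ∈ U
      · exact (min_le_left _ _).trans (infDist_le_dist_of_mem (hNE w hw hwU))
      · refine (min_le_right _ _).trans ?_
        have h1 : r ≤ dist w p := by
          by_contra hlt
          exact hwU (hrU (mem_ball.2 (not_le.1 hlt)))
        have h2 := dist_triangle w z p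
        have h3 := mem_ball.1 hz
        rw [dist_comm w z] at h2
        linarith
    rw [pow_one]
    have hmpos : 0 < min (infDist z E) (r / 2) := lt_min hd (by positivity)
    refine (one_div_le_one_div_of_le hmpos hmin).trans ?_
    rcases le_total (infDist z E) (r / 2) with h | h
    · rw [min_eq_left h]
      gcongr
      linarith
    · rw [min_eq_right h, le_div_iff₀ hd]
      calc 1 / (r / 2) * infDist z E ≤ 1 / (r / 2) * (‖p - e‖ + r) := by gcongr
        _ = (2 / r) * (‖p - e‖ + r) := by rw [one_div_div]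
        _ ≤ C := by rw [hCdef]; linarith
  · have hsp : spectrum ℂ (N + K) = {p} := by
      rw [Set.not_nontrivial_iff] at hs
      exact hs.eq_singleton_of_mem hpσ
    have h1 := g2 H N K p hN hKc hsp
    refine hasHyp_sub _ p (g1 H _ ?_ ?_)
    · have h2 : N + K - p • (1 : H →L[ℂ] H) = (N - p • (1 : H →L[ℂ] H)) + K := by abel
      rw [h2]
      exact h1.add hKc
    · rintro ⟨c, hc'⟩
      refine hn ⟨p + c, ?_⟩
      rw [add_smul, ← hc']
      abel

end Pool.Agent.W402.HI.Asm
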