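import Pool.Agent.W402.HI.Asm

/-!
Project HI: exponentially growing resolvent, stretched exponential decay of the approximation numbers.
-/

set_option autoImplicit false

open Filter Topology MeasureTheory Metric

namespace Pool.Agent.W402.HI.Asm

/-- stretched exponential decay of the approximation numbers -/
def ExpDecay {X : Type} [NormedAddCommGroup X] [NormedSpace ℂ X] (K : X →L[ℂ] X) : Prop :=
  ∃ C ε : ℝ, 0 < ε ∧ ∀ m : ℕ, 1 ≤ m → ∃ G : X →L[ℂ] X,
    FiniteDimensional ℂ (LinearMap.range (G : X →ₗ[ℂ] X)) ∧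
    Module.finrank ℂ (LinearMap.range (G : X →ₗ[ℂ] X)) ≤ m ∧
    ‖K - G‖ ≤ C * Real.exp (-(m : ℝ) ^ ε)

theorem approx_of_exp {X : Type} [NormedAddCommGroup X] [NormedSpace ℂ X] {K : X →L[ℂ] X}
    (h : ExpDecay K) : ApproxDecay K := by
  obtain ⟨C, ε, hε, h⟩ := h
  obtain ⟨n, hn⟩ := exists_nat_gt (1 / ε)
  have hεn : 1 ≤ ε * n := by
    rw [div_lt_iff₀ hε] at hn
    linarith
  refine ⟨|C| * n.factorial, 1, one_pos, fun m hm => ?_⟩
  obtain ⟨G, h1, h2, h3⟩ := h m hm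
  refine ⟨G, h1, h2, h3.trans ?_⟩
  have hm1 : (1 : ℝ) ≤ m := by exact_mod_cast hm
  have hm0 : (0 : ℝ) < m := by linarith
  rw [Real.rpow_one, Real.exp_neg]
  have h4 : (m : ℝ) / n.factorial ≤ Real.exp ((m : ℝ) ^ ε) := by
    refine le_trans ?_ (Real.pow_div_factorial_le_exp _ (by positivity) n)
    gcongr
    rw [← Real.rpow_natCast, ← Real.rpow_mul hm0.le]
    calc (m : ℝ) = (m : ℝ) ^ (1 : ℝ) := (Real.rpow_one _).symm
      _ ≤ _ := Real.rpow_le_rpow_of_exponent_le hm1 hεn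
  have hf : (0 : ℝ) < n.factorial := by exact_mod_cast n.factorial_pos
  calc C * (Real.exp ((m : ℝ) ^ ε))⁻¹ ≤ |C| * (Real.exp ((m : ℝ) ^ ε))⁻¹ := by
        gcongr
        exact le_abs_self C
    _ ≤ |C| * ((m : ℝ) / n.factorial)⁻¹ := by gcongr
    _ = |C| * n.factorial / m := by rw [inv_div, mul_div_assoc]

theorem pertL_of_exp {X : Type} [NormedAddCommGroup X] [NormedSpace ℂ X] {S K : X →L[ℂ] X}
    {E U : Set ℂ} (hEc : IsCompact E) (hEn : E.Nonempty) (h : ExpDecay K)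
    (hS : ∃ (C : ℝ) (k : ℕ), ∀ z ∈ U, z ∉ E → z ∈ resolventSet ℂ S ∧
      ‖resolvent S z‖ ≤ Real.exp (C / infDist z E ^ k)) :
    ∃ (C : ℝ) (p : ℕ), PertL S K E U C p := by
  obtain ⟨C', ε, hε, h⟩ := h
  obtain ⟨C, k, hS⟩ := hS
  set B : ℝ := |C| + Real.log (2 * |C'| + 1) + 1 with hB
  have hlog : 0 ≤ Real.log (2 * |C'| + 1) := Real.log_nonneg (by linarith [abs_nonneg C'])
  have hB1 : 1 ≤ B := by rw [hB]; linarith [abs_nonneg C]
  obtain ⟨q, hq⟩ := exists_nat_ge ((k : ℝ) / ε)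
  set p : ℕ := max k q with hp
  set A : ℝ := |C| + |C'| + B ^ (1 / ε) + 1 with hA
  have hBε : 0 ≤ B ^ (1 / ε) := by positivity
  refine ⟨A, p, fun δ hδ hδ1 => ?_⟩
  have hδk : 0 < δ ^ k := by positivity
  have hδp : 0 < δ ^ p := by positivity
  have hδk1 : δ ^ k ≤ 1 := pow_le_one₀ hδ.le hδ1
  have hkp : 1 / δ ^ k ≤ 1 / δ ^ p :=
    one_div_le_one_div_of_le hδp (pow_le_pow_of_le_one hδ.le hδ1 (le_max_left _ _))
  have h1p : 1 ≤ 1 / δ ^ p := by
    rw [le_div_iff₀ hδp, one_mul]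
    exact pow_le_one₀ hδ.le hδ1
  set x : ℝ := (B / δ ^ k) ^ (1 / ε) with hx
  have hx0 : 0 < x := by positivity
  have hm1 : 1 ≤ ⌈x⌉₊ := Nat.one_le_ceil_iff.2 hx0
  obtain ⟨G, h1, h2, h3⟩ := h ⌈x⌉₊ hm1
  have hmx : x ≤ (⌈x⌉₊ : ℝ) := Nat.le_ceil x
  have hmε : B / δ ^ k ≤ (⌈x⌉₊ : ℝ) ^ ε := by
    calc B / δ ^ k = x ^ ε := by
          rw [hx, ← Real.rpow_mul (by positivity), one_div, inv_mul_cancel₀ hε.ne',
            Real.rpow_one]
      _ ≤ _ := Real.rpow_le_rpow hx0.le hmx hε.le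
  have hKG : ‖K - G‖ ≤ |C'| * Real.exp (-(B / δ ^ k)) := by
    refine h3.trans ?_
    calc C' * Real.exp (-(⌈x⌉₊ : ℝ) ^ ε) ≤ |C'| * Real.exp (-(⌈x⌉₊ : ℝ) ^ ε) := by
          gcongr
          exact le_abs_self C'
      _ ≤ _ := by gcongr
  have hBpos : 0 ≤ B / δ ^ k := by positivity
  refine ⟨G, h1, ?_, ?_, ?_⟩
  · have hxp : x ≤ B ^ (1 / ε) * (1 / δ ^ p) := by
      rw [hx, Real.div_rpow (by positivity) hδk.le, div_eq_mul_one_div]
      gcongr
      rw [← Real.rpow_natCast δ k, ← Real.rpow_mul hδ.le, ← Real.rpow_natCast δ p]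
      refine Real.rpow_le_rpow_of_exponent_ge hδ hδ1 ?_
      calc (k : ℝ) * (1 / ε) = k / ε := by ring
        _ ≤ q := hq
        _ ≤ p := by exact_mod_cast le_max_right _ _
    calc (Module.finrank ℂ (LinearMap.range (G : X →ₗ[ℂ] X)) : ℝ) ≤ (⌈x⌉₊ : ℝ) := by
          exact_mod_cast h2
      _ ≤ x + 1 := (Nat.ceil_lt_add_one hx0.le).le
      _ ≤ B ^ (1 / ε) * (1 / δ ^ p) + 1 / δ ^ p := by gcongr
      _ = (B ^ (1 / ε) + 1) / δ ^ p := by ring
      _ ≤ A / δ ^ p := by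
          gcongr
          rw [hA]
          linarith [abs_nonneg C, abs_nonneg C']
  · refine hKG.trans ?_
    have : Real.exp (-(B / δ ^ k)) ≤ 1 := Real.exp_le_one_iff.2 (by linarith)
    calc |C'| * Real.exp (-(B / δ ^ k)) ≤ |C'| * 1 := by gcongr
      _ ≤ A := by rw [hA]; linarith [abs_nonneg C]
  · intro z hz hzδ
    have hzE : z ∉ E := by
      rw [hEc.isClosed.notMem_iff_infDist_pos hEn]
      linarith
    obtain ⟨h4, h5⟩ := hS z hz hzE
    have h6 : ‖resolvent S z‖ ≤ Real.exp (|C| / δ ^ k) := by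
      refine h5.trans (Real.exp_le_exp.2 ?_)
      calc C / infDist z E ^ k ≤ |C| / infDist z E ^ k := by
            have : 0 < infDist z E := by linarith
            gcongr
            exact le_abs_self C
        _ ≤ |C| / δ ^ k := by gcongr
    refine ⟨h4, ?_, ?_⟩
    · calc ‖K - G‖ * ‖resolvent S z‖
          ≤ (|C'| * Real.exp (-(B / δ ^ k))) * Real.exp (|C| / δ ^ k) := by gcongr
        _ = |C'| * Real.exp (-((Real.log (2 * |C'| + 1) + 1) / δ ^ k)) := by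
            rw [mul_assoc, ← Real.exp_add]
            congr 2
            rw [hB]
            ring
        _ ≤ |C'| * Real.exp (-Real.log (2 * |C'| + 1)) := by
            gcongr
            rw [le_div_iff₀ hδk]
            calc Real.log (2 * |C'| + 1) * δ ^ k ≤ Real.log (2 * |C'| + 1) * 1 := by gcongr
              _ ≤ _ := by linarith
        _ = |C'| / (2 * |C'| + 1) := by
            rw [Real.exp_neg, Real.exp_log (by positivity), div_eq_mul_inv]
        _ ≤ 1 / 2 := by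
            rw [div_le_div_iff₀ (by positivity) (by norm_num)]
            linarith
    · refine h6.trans (Real.exp_le_exp.2 ?_)
      calc |C| / δ ^ k = |C| * (1 / δ ^ k) := by ring
        _ ≤ A * (1 / δ ^ p) := by
            gcongr
            rw [hA]
            linarith [abs_nonneg C']
        _ = A / δ ^ p := by ring

/-- the perturbation theorem, exponential growth -/
theorem perturbExp (hH : P_H2) (h3 : P_E3L) (h4 : P_E4) (h5 : P_E5)
    (X : Type) [NormedAddCommGroup X] [NormedSpace ℂ X] [CompleteSpace X]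
    (S K : X →L[ℂ] X) (γ : ℝ → ℂ) (L : NNReal) (hγ : LipschitzWith L γ) (U : Set ℂ)
    (hU : IsOpen U) (hK : ExpDecay K)
    (hS : ∃ (C : ℝ) (k : ℕ), ∀ z ∈ U, z ∉ γ '' Set.Icc 0 1 → z ∈ resolventSet ℂ S ∧
      ‖resolvent S z‖ ≤ Real.exp (C / infDist z (γ '' Set.Icc 0 1) ^ k))
    (hp : ∃ p ∈ spectrum ℂ (S + K), p ∈ U) (hn : (spectrum ℂ (S + K)).Nontrivial) :
    HasHyp (S + K) := by
  obtain ⟨hc, hne⟩ := curve_compact γ L hγ
  by_cases h : ∀ z ∈ spectrum ℂ (S + K), z ∈ U → z ∈ γ '' Set.Icc 0 1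
  · obtain ⟨C, p, hC⟩ := pertL_of_exp hc hne hK hS
    exact hH X (S + K) γ L hγ U hU h hp hn (h3 X S K _ U C p hc hU hC h)
  · push Not at h
    obtain ⟨z, hz, hzU, hzE⟩ := h
    obtain ⟨C, k, hC⟩ := hS
    exact h4 X S K (h5 X S K _ hc hne (approx_of_exp hK)).1 (not_scalar _ hn) z
      (hC z hzU hzE).1 hz

end Pool.Agent.W402.HI.Asm
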