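import Pool.Agent.W402.HI.Asm

/-!
Project HI: the general perturbation theorem (growth of the resolvent matched with approximability).
-/

set_option autoImplicit false

open Filter Topology MeasureTheory Metric

namespace Pool.Agent.W402.HI.Asm

/-- growth of the resolvent of `S` near `E` inside `U`, matched with the approximability of `K` -/
def Matched {X : Type} [NormedAddCommGroup X] [NormedSpace ℂ X] (S K : X →L[ℂ] X) (E U : Set ℂ)
    (C : ℝ) (k : ℕ) : Prop :=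
  ∀ δ : ℝ, 0 < δ → δ ≤ 1 → ∃ (G : X →L[ℂ] X) (R : ℝ),
    FiniteDimensional ℂ (LinearMap.range (G : X →ₗ[ℂ] X)) ∧
    (Module.finrank ℂ (LinearMap.range (G : X →ₗ[ℂ] X)) : ℝ) ≤ C / δ ^ k ∧
    1 ≤ R ∧ R ≤ Real.exp (C / δ ^ k) ∧ ‖K - G‖ * R ≤ 1 / 2 ∧
    ∀ z ∈ U, δ ≤ infDist z E → z ∈ resolventSet ℂ S ∧ ‖resolvent S z‖ ≤ R

theorem pertL_of_matched {X : Type} [NormedAddCommGroup X] [NormedSpace ℂ X]
    {S K : X →L[ℂ] X} {E U : Set ℂ} {C : ℝ} {k : ℕ} (h : Matched S K E U C k) :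
    PertL S K E U (|C| + 1) k := by
  intro δ hδ hδ1
  obtain ⟨G, R, h1, h2, h3, h4, h5, h6⟩ := h δ hδ hδ1
  have hδk : 0 < δ ^ k := by positivity
  have hC : C / δ ^ k ≤ (|C| + 1) / δ ^ k := by
    gcongr
    linarith [le_abs_self C]
  have hKG : ‖K - G‖ ≤ 1 / 2 := by
    refine le_trans ?_ h5
    exact le_mul_of_one_le_right (norm_nonneg _) h3
  refine ⟨G, h1, h2.trans hC, by linarith [abs_nonneg C], fun z hz hzδ => ?_⟩
  obtain ⟨h7, h8⟩ := h6 z hz hzδ
  refine ⟨h7, ?_, h8.trans (h4.trans (Real.exp_le_exp.2 hC))⟩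
  exact le_trans (by gcongr) h5

/-- Neumann series -/
theorem resolvent_pert {X : Type} [NormedAddCommGroup X] [NormedSpace ℂ X] [CompleteSpace X]
    {S D : X →L[ℂ] X} {z : ℂ} (hz : z ∈ resolventSet ℂ S) (h : ‖D‖ * ‖resolvent S z‖ < 1) :
    z ∈ resolventSet ℂ (S + D) := by
  have h1 : IsUnit (algebraMap ℂ (X →L[ℂ] X) z - S) := hz
  have h2 : IsUnit (1 - resolvent S z * D) := by
    refine isUnit_one_sub_of_norm_lt_one ?_
    calc ‖resolvent S z * D‖ ≤ ‖resolvent S z‖ * ‖D‖ := norm_mul_le _ _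
      _ < 1 := by rw [mul_comm]; exact h
  have h3 := h1.mul h2
  change IsUnit (algebraMap ℂ (X →L[ℂ] X) z - (S + D))
  convert h3 using 1
  have h4 : (algebraMap ℂ (X →L[ℂ] X) z - S) * resolvent S z = 1 := by
    unfold resolvent
    exact Ring.mul_inverse_cancel _ h1
  rw [mul_sub, mul_one, ← mul_assoc, h4, one_mul]
  abel

theorem finrank_compact {X : Type} [NormedAddCommGroup X] [NormedSpace ℂ X]
    (G : X →L[ℂ] X) (h : FiniteDimensional ℂ (LinearMap.range (G : X →ₗ[ℂ] X))) :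
    IsCompactOperator G := by
  haveI := h
  let P := LinearMap.range (G : X →ₗ[ℂ] X)
  let G' : X →L[ℂ] P := G.codRestrict P (fun x => LinearMap.mem_range_self _ x)
  haveI : ProperSpace P := FiniteDimensional.proper ℂ P
  have h1 : IsCompactOperator (P.subtypeL : P →L[ℂ] X) := by
    rw [isCompactOperator_iff_exists_mem_nhds_image_subset_compact]
    refine ⟨Metric.closedBall 0 1, Metric.closedBall_mem_nhds _ one_pos, ?_⟩
    exact ⟨_, (isCompact_closedBall (0 : P) 1).image P.subtypeL.continuous, subset_rfl⟩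
  have h2 : (G : X → X) = (P.subtypeL : P → X) ∘ (G' : X → P) := by
    ext x
    rfl
  rw [h2]
  exact h1.comp_clm G'

/-- the general perturbation theorem -/
theorem perturbGen (hH : P_H2) (h3 : P_E3L) (h4 : P_E4)
    (X : Type) [NormedAddCommGroup X] [NormedSpace ℂ X] [CompleteSpace X]
    (S K : X →L[ℂ] X) (γ : ℝ → ℂ) (L : NNReal) (hγ : LipschitzWith L γ) (U : Set ℂ)
    (hU : IsOpen U) (C : ℝ) (k : ℕ) (hM : Matched S K (γ '' Set.Icc 0 1) U C k)
    (hp : ∃ p ∈ spectrum ℂ (S + K), p ∈ U) (hn : (spectrum ℂ (S + K)).Nontrivial) :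
    HasHyp (S + K) := by
  obtain ⟨hc, hne⟩ := curve_compact γ L hγ
  by_cases h : ∀ z ∈ spectrum ℂ (S + K), z ∈ U → z ∈ γ '' Set.Icc 0 1
  · exact hH X (S + K) γ L hγ U hU h hp hn
      (h3 X S K _ U _ k hc hU (pertL_of_matched hM) h)
  · push Not at h
    obtain ⟨z, hz, hzU, hzE⟩ := h
    have hd : 0 < infDist z (γ '' Set.Icc 0 1) := (hc.isClosed.notMem_iff_infDist_pos hne).1 hzE
    obtain ⟨G, R, g1, g2, g3, g4, g5, g6⟩ := hM (min 1 (infDist z (γ '' Set.Icc 0 1)))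
      (lt_min one_pos hd) (min_le_left _ _)
    obtain ⟨g7, g8⟩ := g6 z hzU (min_le_right _ _)
    have e : S + K = (S + (K - G)) + G := by abel
    rw [e] at hz hn ⊢
    refine h4 X (S + (K - G)) G (finrank_compact G g1) (not_scalar _ hn) z
      (resolvent_pert g7 ?_) hz
    calc ‖K - G‖ * ‖resolvent S z‖ ≤ ‖K - G‖ * R := by gcongr
      _ ≤ 1 / 2 := g5
      _ < 1 := by norm_num

end Pool.Agent.W402.HI.Asm
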