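import Pool.Agent.W402.HI.C1d

/-!
Project HI, task C1: the cut-off function for the part of `E` on the left of a good line.
-/

set_option autoImplicit false

open Filter Topology MeasureTheory Metric

namespace Pool.Agent.W402.HI.C1

variable {Z : Finset ℂ} {dir : ℂ → ℂ} {c θ r ε R : ℝ} {b : ℕ}

lemma FF_self (hp : Prm Z dir c θ r ε R b) {w : ℂ} (hw : w ∈ Z) :
    FF Z dir c θ r ε R b w = 0 := by
  rw [FF_near hp hw (by rw [sub_self, norm_zero]; linarith [hp.hr]), cut_self θ hp.hθ]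
  simp

lemma FF_deriv_self (hp : Prm Z dir c θ r ε R b) {M : ℝ} (hM : 0 ≤ M) {w : ℂ} (hw : w ∈ Z)
    (h : ∀ z : ℂ, z ≠ w → ‖z - w‖ < r / 2 → ‖FF Z dir c θ r ε R b z‖ ≤ M * ‖z - w‖ ^ 2) :
    HasFDerivAt (FF Z dir c θ r ε R b) (0 : ℂ →L[ℝ] ℂ) w := by
  rw [hasFDerivAt_iff_isLittleO]
  simp only [ContinuousLinearMap.zero_apply, sub_zero, FF_self hp hw]
  have h1 : (fun z : ℂ => FF Z dir c θ r ε R b z) =O[𝓝 w] fun z => ‖z - w‖ ^ 2 := by
    apply Asymptotics.IsBigO.of_bound M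
    have hball : ∀ᶠ y in 𝓝 w, ‖y - w‖ < r / 2 :=
      (by fun_prop : ContinuousAt (fun z : ℂ => ‖z - w‖) w).eventually
        (gt_mem_nhds (by show ‖w - w‖ < r / 2; rw [sub_self, norm_zero]; linarith [hp.hr]))
    filter_upwards [hball] with z hz
    by_cases hzw : z = w
    · rw [hzw, FF_self hp hw]; simp
    · rw [norm_pow, norm_norm]; exact h z hzw hz
  refine h1.trans_isLittleO ?_
  have h2 : (fun z : ℂ => ‖z - w‖ ^ 2) =o[𝓝 w] fun z => ‖z - w‖ ^ 1 := by
    have h3 : Tendsto (fun z : ℂ => ‖z - w‖) (𝓝 w) (𝓝 0) := by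
      have : ContinuousAt (fun z : ℂ => ‖z - w‖) w := by fun_prop
      simpa [ContinuousAt] using this
    exact (Asymptotics.isLittleO_pow_pow (by norm_num : 1 < 2)).comp_tendsto h3
  simp only [pow_one] at h2
  exact h2.of_norm_right

/-- closedness of the cones -/
lemma closed_cone (w d : ℂ) (θ : ℝ) :
    IsClosed {z : ℂ | ((z - w) / d).re ≤ 0 ∧ |((z - w) / d).im| ≤ 2 * θ * |((z - w) / d).re|} := by
  have h1 : IsClosed {z : ℂ | ((z - w) / d).re ≤ 0} := isClosed_le (by fun_prop) continuous_const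
  have h2 : IsClosed {z : ℂ | |((z - w) / d).im| ≤ 2 * θ * |((z - w) / d).re|} :=
    isClosed_le (by fun_prop) (by fun_prop)
  exact h1.inter h2

lemma supp_FF (hp : Prm Z dir c θ r ε R b) : ∀ z ∈ tsupport (FF Z dir c θ r ε R b),
    ‖z‖ ^ 2 ≤ R ^ 2 + 1 ∧ (z.re < c ∨ z ∈ Z) := by
  have hcl : IsClosed ({z : ℂ | ‖z‖ ^ 2 ≤ R ^ 2 + 1} ∩ ({z : ℂ | z.re ≤ c - ε / 2} ∪
      ⋃ w ∈ Z, {z : ℂ | ((z - w) / dir w).re ≤ 0 ∧
        |((z - w) / dir w).im| ≤ 2 * θ * |((z - w) / dir w).re|})) := by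
    apply IsClosed.inter
    · exact isClosed_le (by fun_prop) continuous_const
    · apply IsClosed.union
      · exact isClosed_le Complex.continuous_re continuous_const
      · exact isClosed_biUnion_finset fun w _ => closed_cone w (dir w) θ
  have hsub : Function.support (FF Z dir c θ r ε R b) ⊆
      ({z : ℂ | ‖z‖ ^ 2 ≤ R ^ 2 + 1} ∩ ({z : ℂ | z.re ≤ c - ε / 2} ∪
      ⋃ w ∈ Z, {z : ℂ | ((z - w) / dir w).re ≤ 0 ∧
        |((z - w) / dir w).im| ≤ 2 * θ * |((z - w) / dir w).re|})) := by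
    intro z hz
    have h1 : PP Z dir c θ r ε R z ≠ 0 := by
      intro h
      apply hz
      unfold FF
      rw [h]; simp
    obtain ⟨h2, h3⟩ := PP_ne_zero hp h1
    refine ⟨h2, ?_⟩
    rcases h3 with h3 | ⟨w, hw, h3⟩
    · exact Or.inl h3
    · right
      obtain ⟨-, h4, h5⟩ := cut_ne_zero hp.hθ (hp.dir1 w hw) h3
      exact Set.mem_biUnion hw ⟨h4.le, h5⟩
  intro z hz
  have h := closure_minimal hsub hcl hz
  obtain ⟨h1, h2⟩ := h
  refine ⟨h1, ?_⟩
  rcases h2 with h2 | h2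
  · left
    have : z.re ≤ c - ε / 2 := h2
    linarith [hp.hε]
  · rw [Set.mem_iUnion₂] at h2
    obtain ⟨w, hw, h3, h4⟩ := h2
    by_cases hzw : z = w
    · right; rw [hzw]; exact hw
    left
    have hd := hp.dir1 w hw
    have h5 := (re_of_cone hp.hθ.le hd (hp.dirθ w hw) h4).1 h3
    have h6 := norm_le_of_cone hp.hθ.le hp.hθ1 hd h4
    have h7 : 0 < ‖z - w‖ := norm_pos_iff.mpr (sub_ne_zero.mpr hzw)
    have h8 : ((z - w) / dir w).re < 0 := by
      rw [abs_of_nonpos h3] at h6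
      linarith
    have h9 : 0 < (dir w).re := by linarith [hp.dirθ w hw, hp.hθ]
    rw [hp.onl w hw] at h5
    nlinarith

/-- choice of the parameters -/
lemma exists_prm (E : Set ℂ) (hE : IsCompact E) (c : ℝ) (Z : Finset ℂ) (dir : ℂ → ℂ)
    (hG : GoodLine E c Z dir) (N : ℂ → ℝ) (A : ℕ) (hgr : ∀ w ∈ Z, ConeGrowth N w (dir w) A) :
    ∃ (θ r ε R C : ℝ), Prm Z dir c θ r ε R (2 * A + 2) ∧ 0 ≤ C ∧
      (∀ p ∈ E, ‖p‖ < R) ∧
      (∀ w ∈ Z, ∀ p ∈ E, ‖p - w‖ < 2 * r →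
        |((p - w) / dir w).im| ≤ θ / 2 * |((p - w) / dir w).re|) ∧
      (∀ p ∈ E, p.re < c → (∀ w ∈ Z, r / 4 ≤ ‖p - w‖) → p.re ≤ c - 2 * ε) ∧
      (∀ w ∈ Z, ∀ z : ℂ, z ≠ w → ‖z - w‖ < r →
        θ * |((z - w) / dir w).re| ≤ |((z - w) / dir w).im| →
        N z ≤ Real.exp (C / ‖z - w‖ ^ A)) := by
  obtain ⟨hZ, hdir⟩ := hG
  obtain ⟨τ, hτ, hcone⟩ := cone_pow (2 * A + 2) ⟨A + 1, by ring⟩
  -- `θ`
  obtain ⟨θ, hθ, hθ1, hθτ, hθd⟩ : ∃ θ : ℝ, 0 < θ ∧ 2 * θ ≤ 1 ∧ 2 * θ ≤ τ ∧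
      ∀ w ∈ Z, 4 * θ ≤ (dir w).re := by
    obtain ⟨m, hm, hmd⟩ : ∃ m : ℝ, 0 < m ∧ ∀ w ∈ Z, m ≤ (dir w).re := by
      rcases Z.eq_empty_or_nonempty with h | h
      · exact ⟨1, one_pos, by simp [h]⟩
      · obtain ⟨w0, hw0, hmin⟩ := Finset.exists_min_image Z (fun w => (dir w).re) h
        exact ⟨(dir w0).re, (hdir w0 hw0).2.1, hmin⟩
    refine ⟨min (1 / 2) (min (τ / 2) (m / 4)), by positivity, ?_, ?_, fun w hw => ?_⟩
    · have := min_le_left (1 / 2 : ℝ) (min (τ / 2) (m / 4)); linarith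
    · have := (min_le_right (1 / 2 : ℝ) (min (τ / 2) (m / 4))).trans (min_le_left _ _); linarith
    · have := (min_le_right (1 / 2 : ℝ) (min (τ / 2) (m / 4))).trans (min_le_right _ _)
      linarith [hmd w hw]
  -- radii
  have hr1 : ∀ w : ℂ, ∃ r : ℝ, 0 < r ∧ (w ∈ Z → ∀ p ∈ E, ‖p - w‖ < r →
      |((p - w) / dir w).im| ≤ θ / 2 * |((p - w) / dir w).re|) := by
    intro w
    by_cases hw : w ∈ Z
    · obtain ⟨r, hr, h⟩ := (hdir w hw).2.2 (θ / 2) (by positivity)
      exact ⟨r, hr, fun _ => h⟩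
    · exact ⟨1, one_pos, fun h => absurd h hw⟩
  choose r1 hr1p hr1 using hr1
  have hr2 : ∀ w : ℂ, ∃ C r : ℝ, 0 < r ∧ (w ∈ Z → ∀ z : ℂ, z ≠ w → ‖z - w‖ < r →
      θ * |((z - w) / dir w).re| ≤ |((z - w) / dir w).im| →
        N z ≤ Real.exp (C / ‖z - w‖ ^ A)) := by
    intro w
    by_cases hw : w ∈ Z
    · obtain ⟨C, r, hr, h⟩ := hgr w hw θ hθ
      exact ⟨C, r, hr, fun _ => h⟩
    · exact ⟨0, 1, one_pos, fun h => absurd h hw⟩
  choose C2 r2 hr2p hr2 using hr2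
  obtain ⟨r0, hr0, hr0a, hr0b⟩ : ∃ r0 : ℝ, 0 < r0 ∧ (∀ w ∈ Z, r0 ≤ r1 w) ∧
      ∀ w ∈ Z, r0 ≤ r2 w := by
    rcases Z.eq_empty_or_nonempty with h | h
    · exact ⟨1, one_pos, by simp [h], by simp [h]⟩
    · obtain ⟨w0, hw0, hmin⟩ := Finset.exists_min_image Z (fun w => min (r1 w) (r2 w)) h
      refine ⟨min (r1 w0) (r2 w0), lt_min (hr1p w0) (hr2p w0), fun w hw => ?_, fun w hw => ?_⟩
      · exact (hmin w hw).trans (min_le_left _ _)
      · exact (hmin w hw).trans (min_le_right _ _)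
  obtain ⟨s0, hs0, hsep⟩ : ∃ s0 : ℝ, 0 < s0 ∧ ∀ w ∈ Z, ∀ w' ∈ Z, w ≠ w' → s0 ≤ ‖w - w'‖ := by
    rcases (Z ×ˢ Z).filter (fun p => p.1 ≠ p.2) |>.eq_empty_or_nonempty with h | h
    · refine ⟨1, one_pos, fun w hw w' hw' hne => ?_⟩
      have : (w, w') ∈ (Z ×ˢ Z).filter (fun p => p.1 ≠ p.2) := by simp [hw, hw', hne]
      rw [h] at this
      exact absurd this (Finset.notMem_empty _)
    · obtain ⟨q, hq, hmin⟩ := Finset.exists_min_image _ (fun p : ℂ × ℂ => ‖p.1 - p.2‖) h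
      refine ⟨‖q.1 - q.2‖, norm_pos_iff.mpr (sub_ne_zero.mpr (Finset.mem_filter.mp hq).2),
        fun w hw w' hw' hne => ?_⟩
      exact hmin (w, w') (by simp [hw, hw', hne])
  set r := min 1 (min (r0 / 2) (s0 / 4)) with hr
  have hrp : 0 < r := by positivity
  have hra : r ≤ 1 := min_le_left _ _
  have hrb : r ≤ r0 / 2 := (min_le_right _ _).trans (min_le_left _ _)
  have hrc : r ≤ s0 / 4 := (min_le_right _ _).trans (min_le_right _ _)
  -- the constant
  obtain ⟨C, hC0, hC⟩ : ∃ C : ℝ, 0 ≤ C ∧ ∀ w ∈ Z, C2 w ≤ C := by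
    refine ⟨∑ w ∈ Z, |C2 w|, Finset.sum_nonneg fun w _ => abs_nonneg _, fun w hw => ?_⟩
    exact (le_abs_self _).trans
      (Finset.single_le_sum (f := fun w => |C2 w|) (fun w _ => abs_nonneg _) hw)
  -- `ε`
  obtain ⟨ε, hε, hεE⟩ : ∃ ε : ℝ, 0 < ε ∧ ∀ p ∈ E, p.re < c → (∀ w ∈ Z, r / 4 ≤ ‖p - w‖) →
      p.re ≤ c - 2 * ε := by
    have hK : IsCompact (E ∩ ({p : ℂ | p.re ≤ c} ∩ ⋂ w ∈ Z, {p : ℂ | r / 4 ≤ ‖p - w‖})) := by
      apply hE.inter_right
      apply IsClosed.inter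
      · exact isClosed_le Complex.continuous_re continuous_const
      · exact isClosed_biInter fun w _ => isClosed_le continuous_const (by fun_prop)
    rcases (E ∩ ({p : ℂ | p.re ≤ c} ∩ ⋂ w ∈ Z, {p : ℂ | r / 4 ≤ ‖p - w‖})).eq_empty_or_nonempty
      with h | h
    · refine ⟨1, one_pos, fun p hpE hpc hpw => ?_⟩
      have : p ∈ E ∩ ({p : ℂ | p.re ≤ c} ∩ ⋂ w ∈ Z, {p : ℂ | r / 4 ≤ ‖p - w‖}) :=
        ⟨hpE, hpc.le, Set.mem_iInter₂.mpr hpw⟩
      rw [h] at this
      exact absurd this (Set.notMem_empty _)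
    · obtain ⟨q, ⟨hqE, hqc, hqw⟩, hmax⟩ := hK.exists_isMaxOn h
        Complex.continuous_re.continuousOn
      have hq : q.re < c := by
        refine lt_of_le_of_ne hqc fun heq => ?_
        have h1 : q ∈ Z := (hZ q).mpr ⟨hqE, heq⟩
        have h2 := Set.mem_iInter₂.mp hqw q h1
        simp only [Set.mem_setOf_eq, sub_self, norm_zero] at h2
        linarith
      refine ⟨(c - q.re) / 2, by linarith, fun p hpE hpc hpw => ?_⟩
      have : p.re ≤ q.re := hmax ⟨hpE, hpc.le, Set.mem_iInter₂.mpr hpw⟩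
      linarith
  -- `R`
  obtain ⟨R0, hR0⟩ := hE.isBounded.exists_norm_le
  refine ⟨θ, r, ε, R0 + 3, C, ?_, hC0, fun p hp => by linarith [hR0 p hp], ?_, hεE, ?_⟩
  · refine ⟨hθ, hθ1, fun w hw => (hdir w hw).1, hθd, hrp, hra, ?_, hε, ?_, ?_, ?_⟩
    · intro w hw w' hw' hne
      linarith [hsep w hw w' hw' hne]
    · exact fun w hw => ((hZ w).mp hw).2
    · intro w hw
      linarith [hR0 w ((hZ w).mp hw).1]
    · intro s hs hsc
      apply hcone s hs
      exact hsc.trans (mul_le_mul_of_nonneg_right hθτ (abs_nonneg _))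
  · intro w hw p hp hlt
    exact hr1 w hw p hp (by linarith [hr0a w hw])
  · intro w hw z hz hlt hc
    refine (hr2 w hw z hz (by linarith [hr0b w hw]) hc).trans (Real.exp_le_exp.mpr ?_)
    have : 0 < ‖z - w‖ ^ A := pow_pos (norm_pos_iff.mpr (sub_ne_zero.mpr hz)) A
    gcongr
    exact hC w hw

theorem main : P_C1 := by
  intro E hE c Z dir hG N A hN hNc hgr
  obtain ⟨θ, r, ε, R, C, hp, hC0, hER, hEcone, hEε, hNest⟩ := exists_prm E hE c Z dir hG N A hgr
  obtain ⟨hZ, hdir⟩ := hG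
  obtain ⟨M, hM0, hM⟩ := near_est hp A (by omega) C hC0
  set F := FF Z dir c θ r ε R (2 * A + 2) with hF
  have hr := hp.hr
  -- values near `E`
  have hleft : ∀ p ∈ E, p.re < c → F =ᶠ[𝓝 p] gg Z dir (2 * A + 2) := by
    intro p hpE hpc
    filter_upwards [PP_one_near hp (hER p hpE) hpc (fun w hw => hEcone w hw p hpE)
      (hEε p hpE hpc)] with z hz
    rw [hF]; unfold FF
    rw [hz]; simp
  have hright : ∀ p ∈ E, c < p.re → F =ᶠ[𝓝 p] 0 := by
    intro p hpE hpc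
    filter_upwards [PP_zero_near hp hpc (fun w hw => hEcone w hw p hpE)] with z hz
    rw [hF]; unfold FF
    rw [hz]; simp
  -- differentiability
  have hdz : ∀ w ∈ Z, HasFDerivAt F (0 : ℂ →L[ℝ] ℂ) w := fun w hw =>
    FF_deriv_self hp hM0 hw fun z hz hlt => (hM w hw z hz hlt).1
  have hCD : ∀ z, z ∉ Z → ContDiffAt ℝ 1 F z := by
    intro z hz
    rw [hF]
    have h1 : ContDiffAt ℝ 1 (gg Z dir (2 * A + 2)) z := by
      have h2 : ContDiffAt ℂ 1 (gg Z dir (2 * A + 2)) z := by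
        unfold gg QQ
        refine ContDiffAt.cexp ?_
        refine ContDiffAt.neg ?_
        refine ContDiffAt.sum fun w hw => ?_
        refine ContDiffAt.pow ?_ _
        refine ContDiffAt.inv ?_ ?_
        · exact (contDiffAt_id.sub contDiffAt_const).div_const _
        · exact div_ne_zero (sub_ne_zero.mpr (by rintro rfl; exact hz hw)) (dir_ne hp hw)
      exact h2.restrict_scalars ℝ
    exact (Complex.ofRealCLM.contDiff.contDiffAt.comp z (contDiffAt_PP hz 1)).mul h1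
  have hdiff : Differentiable ℝ F := by
    intro z
    by_cases hz : z ∈ Z
    · exact (hdz z hz).differentiableAt
    · exact (hCD z hz).differentiableAt one_ne_zero
  -- support
  have hsupp := supp_FF hp
  have hcs : HasCompactSupport F := by
    apply HasCompactSupport.intro (isCompact_closedBall (0 : ℂ) (Real.sqrt (R ^ 2 + 1)))
    intro z hz
    by_contra hne
    have h1 := (hsupp z (subset_tsupport _ hne)).1
    apply hz
    rw [mem_closedBall_zero_iff]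
    exact Real.le_sqrt_of_sq_le h1
  -- the far compact set
  set K1 : Set ℂ := tsupport F ∩ ⋂ w ∈ Z, {z : ℂ | r / 2 ≤ ‖z - w‖} with hK1
  have hK1c : IsCompact K1 := by
    apply IsCompact.inter_right hcs
    exact isClosed_biInter fun w _ => isClosed_le continuous_const (by fun_prop)
  have hK1Z : ∀ z ∈ K1, z ∉ Z := by
    intro z hz hzZ
    have h2 := Set.mem_iInter₂.mp hz.2 z hzZ
    simp only [Set.mem_setOf_eq, sub_self, norm_zero] at h2
    linarith
  have hK1re : ∀ z ∈ K1, z.re < c := by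
    intro z hz
    exact ((hsupp z hz.1).2).resolve_right (hK1Z z hz)
  have hfdc : ContinuousOn (fun z => ‖fderiv ℝ F z‖) K1 := by
    intro z hz
    have h1 : ContinuousAt (fderiv ℝ F) z :=
      ((hCD z (hK1Z z hz)).fderiv_right (m := 0) (by norm_num)).continuousAt
    exact (continuous_norm.continuousAt.comp h1).continuousWithinAt
  obtain ⟨M1, hM1⟩ := hK1c.exists_bound_of_continuousOn hfdc
  -- position
  have hpos : ∀ z ∈ tsupport F, z ∉ Z → (∃ w ∈ Z, z ≠ w ∧ ‖z - w‖ < r / 2) ∨ z ∈ K1 := by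
    intro z hz hzZ
    by_cases h : ∃ w ∈ Z, ‖z - w‖ < r / 2
    · obtain ⟨w, hw, hlt⟩ := h
      exact Or.inl ⟨w, hw, by rintro rfl; exact hzZ hw, hlt⟩
    · push Not at h
      exact Or.inr ⟨hz, Set.mem_iInter₂.mpr h⟩
  have hfd0 : ∀ z, z ∉ tsupport F → fderiv ℝ F z = 0 := by
    intro z hz
    have h1 : F =ᶠ[𝓝 z] 0 := notMem_tsupport_iff_eventuallyEq.mp hz
    rw [h1.fderiv_eq]
    simp [Pi.zero_def]
  have hDZ : ∀ w ∈ Z, D F w = 0 := by
    intro w hw
    unfold D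
    rw [(hdz w hw).fderiv]
    simp
  have hDsupp : ∀ z, D F z ≠ 0 → z ∈ tsupport F ∧ z ∉ Z := by
    intro z hz
    constructor
    · by_contra h
      apply hz
      unfold D
      rw [hfd0 z h]
      simp
    · intro h
      exact hz (hDZ z h)
  have hgdiff : ∀ z, z ∉ Z → DifferentiableAt ℂ (gg Z dir (2 * A + 2)) z := fun z hz =>
    (diff_gg hp hz).1
  have hDE : ∀ p ∈ E, p ∉ Z → ∀ᶠ z in 𝓝 p, D F z = 0 := by
    intro p hpE hpZ
    rcases lt_trichotomy p.re c with h | h | h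
    · have h1 := (hleft p hpE h).eventuallyEq_nhds
      have h2 : ∀ᶠ z in 𝓝 p, z ∉ Z :=
        (Z.finite_toSet.isClosed.isOpen_compl).mem_nhds (by simpa using hpZ)
      filter_upwards [h1, h2] with z hz1 hz2
      rw [D_congr hz1]
      exact D_holo (hgdiff z hz2)
    · exact absurd ((hZ p).mpr ⟨hpE, h⟩) hpZ
    · have h1 := (hright p hpE h).eventuallyEq_nhds
      filter_upwards [h1] with z hz1
      exact D_zero_of_eventually hz1
  refine ⟨F, ⟨hdiff, ?_, hcs⟩, fun z hz => (hsupp z hz).2, ?_, ?_, ?_⟩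
  · -- bounded derivative
    refine ⟨max M (max M1 0), fun z => ?_⟩
    by_cases hz : z ∈ tsupport F
    · by_cases hzZ : z ∈ Z
      · rw [(hdz z hzZ).fderiv, norm_zero]
        exact le_max_of_le_left hM0
      · rcases hpos z hz hzZ with ⟨w, hw, hne, hlt⟩ | h
        · exact (hM w hw z hne hlt).2.2.1.trans (le_max_left _ _)
        · have := hM1 z h
          rw [norm_norm] at this
          exact this.trans ((le_max_left _ _).trans (le_max_right _ _))
    · rw [hfd0 z hz, norm_zero]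
      exact (le_max_right M1 0).trans (le_max_right _ _)
  · -- off `E`
    intro z hz hzE
    exact hz (hDE z hzE (hDsupp z hz).2).self_of_nhds
  · -- the weighted bound
    -- the closed set where `D F` lives
    set K2 : Set ℂ := K1 ∩ closure {z | D F z ≠ 0} with hK2
    have hK2c : IsCompact K2 := hK1c.inter_right isClosed_closure
    have hK2E : K2 ⊆ Eᶜ := by
      intro z hz hzE
      have h1 := hDE z hzE (hK1Z z hz.1)
      obtain ⟨y, hy1, hy2⟩ := mem_closure_iff_frequently.mp hz.2 |>.and_eventually h1 |>.exists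
      exact hy1 hy2
    obtain ⟨M2, hM2⟩ := hK2c.exists_bound_of_continuousOn (hNc.mono hK2E)
    obtain ⟨m, hm, hmK⟩ : ∃ m : ℝ, 0 < m ∧ ∀ z ∈ K2, m ≤ c - z.re := by
      rcases K2.eq_empty_or_nonempty with h | h
      · exact ⟨1, one_pos, by simp [h]⟩
      · obtain ⟨q, hq, hmax⟩ := hK2c.exists_isMaxOn h Complex.continuous_re.continuousOn
        refine ⟨c - q.re, by linarith [hK1re q hq.1], fun z hz => ?_⟩
        have : z.re ≤ q.re := hmax hz
        linarith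
    obtain ⟨κ, hκ, hκZ⟩ : ∃ κ : ℝ, 0 < κ ∧ ∀ w ∈ Z, κ ≤ (dir w).re := by
      exact ⟨4 * θ, by linarith [hp.hθ], hp.dirθ⟩
    refine ⟨2 * M * (4 / κ) + 2 * |M1| * (1 + |M2|) / m, fun z => ?_⟩
    have hterm1 : 0 ≤ 2 * M * (4 / κ) := by positivity
    have hterm2 : 0 ≤ 2 * |M1| * (1 + |M2|) / m := by positivity
    by_cases hDz : D F z = 0
    · rw [hDz, norm_zero, zero_mul]
      positivity
    obtain ⟨hzs, hzZ⟩ := hDsupp z hDz
    rcases hpos z hzs hzZ with ⟨w, hw, hne, hlt⟩ | h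
    · obtain ⟨-, -, -, h4, h5⟩ := hM w hw z hne hlt
      obtain ⟨h6, h7, h8⟩ := h5 hDz
      have hd := hp.dir1 w hw
      have h9 := hNest w hw z hne (by linarith) h8
      have h10 := (re_of_cone hp.hθ.le hd (hp.dirθ w hw) h7).1 h6.le
      have h11 := norm_le_of_cone hp.hθ.le hp.hθ1 hd h7
      rw [abs_of_neg h6] at h11
      rw [hp.onl w hw] at h10
      have hn : 0 < ‖z - w‖ := norm_pos_iff.mpr (sub_ne_zero.mpr hne)
      have hX : 1 ≤ Real.exp (C / ‖z - w‖ ^ A) := Real.one_le_exp (by positivity)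
      have h12 : ‖D F z‖ * (1 + N z) ≤ 2 * (M * ‖z - w‖) := by
        calc ‖D F z‖ * (1 + N z) ≤ ‖D F z‖ * (2 * Real.exp (C / ‖z - w‖ ^ A)) := by
              gcongr; linarith
          _ = 2 * (‖D F z‖ * Real.exp (C / ‖z - w‖ ^ A)) := by ring
          _ ≤ 2 * (M * ‖z - w‖) := by gcongr
      have h13 : ‖z - w‖ ≤ 4 / κ * |z.re - c| := by
        have h14 : z.re - c ≤ -(‖z - w‖ * κ / 4) := by
          have h15 := hκZ w hw
          nlinarith
        have h16 : z.re - c ≤ 0 := by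
          have : 0 ≤ ‖z - w‖ * κ / 4 := by positivity
          linarith
        rw [abs_of_nonpos h16, div_mul_eq_mul_div, le_div_iff₀ hκ]
        linarith
      calc ‖D F z‖ * (1 + N z) ≤ 2 * (M * ‖z - w‖) := h12
        _ ≤ 2 * (M * (4 / κ * |z.re - c|)) := by gcongr
        _ = 2 * M * (4 / κ) * |z.re - c| := by ring
        _ ≤ _ := by
            apply mul_le_mul_of_nonneg_right _ (abs_nonneg _)
            linarith
    · have hzK2 : z ∈ K2 := ⟨h, subset_closure hDz⟩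
      have h1 := hM1 z h
      rw [norm_norm] at h1
      have h2 : N z ≤ |M2| := by
        have := hM2 z hzK2
        rw [Real.norm_eq_abs, abs_of_nonneg (hN z)] at this
        exact this.trans (le_abs_self _)
      have h3 : ‖D F z‖ ≤ 2 * |M1| :=
        (D_norm_le F z).trans (by gcongr; exact h1.trans (le_abs_self _))
      have h4 : m ≤ |z.re - c| := by
        rw [abs_sub_comm]
        exact (hmK z hzK2).trans (le_abs_self _)
      calc ‖D F z‖ * (1 + N z) ≤ 2 * |M1| * (1 + |M2|) := by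
            have := hN z
            gcongr
        _ = 2 * |M1| * (1 + |M2|) / m * m := by field_simp
        _ ≤ 2 * |M1| * (1 + |M2|) / m * |z.re - c| := by gcongr
        _ ≤ _ := by
            apply mul_le_mul_of_nonneg_right _ (abs_nonneg _)
            linarith
  · intro p hpE hpc
    have hpZ : p ∉ Z := by
      intro h
      exact hpc.ne ((hZ p).mp h).2
    refine ⟨?_, hDE p hpE hpZ⟩
    rw [(hleft p hpE hpc).self_of_nhds]
    exact gg_ne p

end Pool.Agent.W402.HI.C1
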