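import Pool.Agent.W402.HI.Defs

/-!
Project HI, task C1, part a: elementary facts.
-/

set_option autoImplicit false

open Filter Topology MeasureTheory Metric

namespace Pool.Agent.W402.HI.C1

lemma D_mul {f g : ℂ → ℂ} {z : ℂ} (hf : DifferentiableAt ℝ f z) (hg : DifferentiableAt ℂ g z) :
    D (fun z => f z * g z) z = D f z * g z := by
  have hg' : DifferentiableAt ℝ g z := hg.restrictScalars ℝ
  have h1 : fderiv ℝ (fun z => f z * g z) z = f z • fderiv ℝ g z + g z • fderiv ℝ f z :=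
    fderiv_fun_mul hf hg'
  have h2 : fderiv ℝ g z Complex.I = Complex.I * fderiv ℝ g z 1 := by
    have h3 : fderiv ℝ g z = (fderiv ℂ g z).restrictScalars ℝ :=
      (hg.hasFDerivAt.restrictScalars ℝ).fderiv
    rw [h3]
    simp only [ContinuousLinearMap.coe_restrictScalars']
    have := (fderiv ℂ g z).map_smul Complex.I 1
    simpa using this
  unfold D
  rw [h1]
  simp only [ContinuousLinearMap.add_apply, ContinuousLinearMap.smul_apply, smul_eq_mul]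
  rw [h2]
  ring_nf
  rw [Complex.I_sq]
  ring

lemma D_norm_le (f : ℂ → ℂ) (z : ℂ) : ‖D f z‖ ≤ 2 * ‖fderiv ℝ f z‖ := by
  unfold D
  have h1 : ‖fderiv ℝ f z 1‖ ≤ ‖fderiv ℝ f z‖ := by
    simpa using (fderiv ℝ f z).le_opNorm (1 : ℂ)
  have h2 : ‖fderiv ℝ f z Complex.I‖ ≤ ‖fderiv ℝ f z‖ := by
    simpa using (fderiv ℝ f z).le_opNorm Complex.I
  calc ‖fderiv ℝ f z 1 + Complex.I * fderiv ℝ f z Complex.I‖
      ≤ ‖fderiv ℝ f z 1‖ + ‖Complex.I * fderiv ℝ f z Complex.I‖ := norm_add_le _ _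
    _ ≤ ‖fderiv ℝ f z‖ + ‖fderiv ℝ f z‖ := by
        rw [norm_mul, Complex.norm_I, one_mul]
        exact add_le_add h1 h2
    _ = 2 * ‖fderiv ℝ f z‖ := by ring

lemma D_congr {f g : ℂ → ℂ} {z : ℂ} (h : f =ᶠ[𝓝 z] g) : D f z = D g z := by
  unfold D
  rw [h.fderiv_eq]

lemma D_zero_of_eventually {f : ℂ → ℂ} {z : ℂ} (h : f =ᶠ[𝓝 z] 0) : D f z = 0 := by
  rw [D_congr h]
  unfold D
  simp [Pi.zero_def]

lemma D_holo {g : ℂ → ℂ} {z : ℂ} (hg : DifferentiableAt ℂ g z) : D g z = 0 := by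
  have h := D_mul (f := fun _ => 1) (g := g) (z := z) (differentiableAt_const _) hg
  simp only [one_mul] at h
  rw [h]
  unfold D
  simp

/-- the basic growth estimate -/
lemma exp_bound (A b k : ℕ) (hb : A + 2 ≤ b) (C : ℝ) (hC : 0 ≤ C) : ∃ M : ℝ, 0 ≤ M ∧
    ∀ ρ : ℝ, 0 < ρ → ρ ≤ 1 →
      Real.exp (-(1 / 2 * (1 / ρ) ^ b)) * (1 / ρ) ^ k * Real.exp (C / ρ ^ A) ≤ M := by
  obtain ⟨b, rfl⟩ : ∃ b', b = b' + 1 := ⟨b - 1, by omega⟩
  have hA : A ≤ b := by omega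
  set C' := C + (k : ℝ) with hC'
  have hC'0 : 0 ≤ C' := by positivity
  refine ⟨Real.exp (C' * (2 * C') ^ b), (Real.exp_pos _).le, fun ρ h0 h1 => ?_⟩
  obtain ⟨t, ht⟩ : ∃ t, t = 1 / ρ := ⟨_, rfl⟩
  have ht1 : 1 ≤ t := by rw [ht]; exact (one_le_div h0).mpr h1
  have h2 : C / ρ ^ A = C * t ^ A := by rw [ht, one_div, inv_pow]; rfl
  rw [← ht, h2]
  have h3 : t ^ k ≤ Real.exp (k * t) := by
    rw [Real.exp_nat_mul]
    exact pow_le_pow_left₀ (by linarith) ((by linarith : t ≤ t + 1).trans (Real.add_one_le_exp t)) k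
  have h4 : Real.exp (-(1 / 2 * t ^ (b + 1))) * t ^ k * Real.exp (C * t ^ A) ≤
      Real.exp (-(1 / 2 * t ^ (b + 1)) + k * t + C * t ^ A) := by
    rw [Real.exp_add, Real.exp_add]
    gcongr
  refine h4.trans (Real.exp_le_exp.mpr ?_)
  have h5 : t ^ A ≤ t ^ b := pow_le_pow_right₀ ht1 hA
  have h6 : t ≤ t ^ b := by
    calc t = t ^ 1 := (pow_one t).symm
      _ ≤ t ^ b := pow_le_pow_right₀ ht1 (by omega)
  have h7 : -(1 / 2 * t ^ (b + 1)) + k * t + C * t ^ A ≤ t ^ b * (C' - t / 2) := by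
    have h8 : (k : ℝ) * t ≤ k * t ^ b := mul_le_mul_of_nonneg_left h6 (by positivity)
    have h9 : C * t ^ A ≤ C * t ^ b := mul_le_mul_of_nonneg_left h5 hC
    rw [hC', pow_succ]
    nlinarith
  refine h7.trans ?_
  have htb : 0 ≤ t ^ b := by positivity
  rcases le_total (C' - t / 2) 0 with h | h
  · have : t ^ b * (C' - t / 2) ≤ 0 := mul_nonpos_of_nonneg_of_nonpos htb h
    have h10 : 0 ≤ C' * (2 * C') ^ b := by positivity
    linarith
  · have h11 : t ^ b ≤ (2 * C') ^ b := pow_le_pow_left₀ (by linarith) (by linarith) b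
    calc t ^ b * (C' - t / 2) ≤ (2 * C') ^ b * C' := by
          apply mul_le_mul h11 (by linarith) h (by positivity)
      _ = C' * (2 * C') ^ b := mul_comm _ _

/-- narrow cones: `s⁻ᵇ` has large real part there -/
lemma cone_pow (b : ℕ) (hb : Even b) : ∃ τ : ℝ, 0 < τ ∧ ∀ s : ℂ, s ≠ 0 → |s.im| ≤ τ * |s.re| →
    1 / 2 * (1 / ‖s‖) ^ b ≤ ((s⁻¹) ^ b).re := by
  have hcont : ContinuousAt (fun t : ℝ => (((1 + (t : ℂ) * Complex.I)⁻¹) ^ b).re) 0 := by
    have h1 : (1 + ((0 : ℝ) : ℂ) * Complex.I) ≠ 0 := by simp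
    have h2 : ContinuousAt (fun t : ℝ => (1 + (t : ℂ) * Complex.I)) 0 := by fun_prop
    exact Complex.continuous_re.continuousAt.comp ((h2.inv₀ h1).pow b)
  have h0 : (((1 + ((0 : ℝ) : ℂ) * Complex.I)⁻¹) ^ b).re = 1 := by simp
  have hev : ∀ᶠ t : ℝ in 𝓝 0, 1 / 2 < (((1 + (t : ℂ) * Complex.I)⁻¹) ^ b).re := by
    refine hcont.eventually (lt_mem_nhds ?_)
    show 1 / 2 < (((1 + ((0 : ℝ) : ℂ) * Complex.I)⁻¹) ^ b).re
    rw [h0]; norm_num
  obtain ⟨τ, hτ, h⟩ := Metric.eventually_nhds_iff.mp hev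
  refine ⟨τ / 2, by positivity, fun s hs hcone => ?_⟩
  have hre : s.re ≠ 0 := by
    intro h0
    rw [h0, abs_zero, mul_zero] at hcone
    have : s.im = 0 := abs_nonpos_iff.mp hcone
    exact hs (Complex.ext h0 this)
  set t := s.im / s.re with ht
  have hs' : s = (s.re : ℂ) * (1 + (t : ℂ) * Complex.I) := by
    apply Complex.ext
    · simp
    · simp [ht]
      field_simp
  have ht' : |t| ≤ τ / 2 := by
    rw [ht, abs_div, div_le_iff₀ (abs_pos.mpr hre)]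
    exact hcone
  have h1 := h (y := t) (by rw [Real.dist_eq, sub_zero]; linarith)
  have hpos : 0 < (1 / |s.re|) ^ b := by positivity
  have h2 : (s⁻¹) ^ b = (((1 / |s.re|) ^ b : ℝ) : ℂ) * ((1 + (t : ℂ) * Complex.I)⁻¹) ^ b := by
    conv_lhs => rw [hs']
    rw [mul_inv, mul_pow]
    congr 1
    push_cast
    rw [← Complex.ofReal_inv, ← Complex.ofReal_pow]
    rw [one_div, ← hb.pow_abs (s.re)⁻¹, abs_inv]
    push_cast
    rfl
  rw [h2, Complex.re_ofReal_mul]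
  have h3 : (1 / ‖s‖) ^ b ≤ (1 / |s.re|) ^ b := by
    apply pow_le_pow_left₀ (by positivity)
    apply one_div_le_one_div_of_le (abs_pos.mpr hre) (Complex.abs_re_le_norm s)
  nlinarith

/-- partitions of unity with at most one nonzero term -/
lemma sum_prod {ι : Type} (Z : Finset ι) (a : ι → ℝ)
    (h : ∀ i ∈ Z, ∀ j ∈ Z, i ≠ j → a i = 0 ∨ a j = 0) :
    ∑ i ∈ Z, a i + ∏ i ∈ Z, (1 - a i) = 1 := by
  by_cases hall : ∀ i ∈ Z, a i = 0
  · rw [Finset.sum_eq_zero hall, Finset.prod_eq_one (fun i hi => by rw [hall i hi, sub_zero])]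
    norm_num
  · push Not at hall
    obtain ⟨i, hi, hai⟩ := hall
    have h1 : ∀ j ∈ Z, j ≠ i → a j = 0 := fun j hj hji => (h i hi j hj hji.symm).resolve_left hai
    rw [Finset.sum_eq_single i h1 (fun h => absurd hi h),
      Finset.prod_eq_single i (fun j hj hji => by rw [h1 j hj hji, sub_zero])
        (fun h => absurd hi h)]
    ring

/-! ### the angular cut-off -/

/-- cosine of the angle between `z - w` and `d` -/
noncomputable def cosA (w d z : ℂ) : ℝ := ((z - w) / d).re / ‖z - w‖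

lemma contDiffAt_cosA {w d z : ℂ} (hz : z ≠ w) (n : WithTop ℕ∞) :
    ContDiffAt ℝ n (cosA w d) z := by
  have hz' : z - w ≠ 0 := sub_ne_zero.mpr hz
  unfold cosA
  refine ContDiffAt.div ?_ ?_ (norm_ne_zero_iff.mpr hz')
  · have h1 : ContDiffAt ℝ n (fun z : ℂ => (z - w) / d) z := by
      apply ContDiffAt.div_const
      exact contDiffAt_id.sub contDiffAt_const
    exact Complex.reCLM.contDiff.contDiffAt.comp z h1
  · exact (contDiffAt_id.sub contDiffAt_const).norm ℝ hz'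

lemma unit_diff (a b : ℂ) (hb : b ≠ 0) : ‖a / (‖a‖ : ℂ) - b / (‖b‖ : ℂ)‖ ≤ 2 / ‖b‖ * ‖a - b‖ := by
  have hb' : 0 < ‖b‖ := norm_pos_iff.mpr hb
  have hbc : ((‖b‖ : ℝ) : ℂ) ≠ 0 := by exact_mod_cast hb'.ne'
  by_cases ha : a = 0
  · subst ha
    simp only [norm_zero, Complex.ofReal_zero, zero_div, zero_sub, norm_neg, norm_div,
      Complex.norm_real, norm_norm]
    rw [div_self hb'.ne', div_mul_cancel₀ _ hb'.ne']
    norm_num
  have ha' : 0 < ‖a‖ := norm_pos_iff.mpr ha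
  have hac : ((‖a‖ : ℝ) : ℂ) ≠ 0 := by exact_mod_cast ha'.ne'
  have h1 : a / (‖a‖ : ℂ) - b / (‖b‖ : ℂ) =
      (a - b) / (‖b‖ : ℂ) + a / (‖a‖ : ℂ) * (((‖b‖ - ‖a‖ : ℝ) : ℂ) / (‖b‖ : ℂ)) := by
    push_cast
    field_simp
    ring
  rw [h1]
  refine (norm_add_le _ _).trans ?_
  rw [norm_mul, norm_div, norm_div, norm_div, Complex.norm_real, Complex.norm_real,
    Complex.norm_real, norm_norm, norm_norm, div_self ha'.ne', one_mul, Real.norm_eq_abs]
  have h2 : |‖b‖ - ‖a‖| ≤ ‖a - b‖ := by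
    rw [abs_sub_comm]; exact abs_norm_sub_norm_le a b
  calc ‖a - b‖ / ‖b‖ + |‖b‖ - ‖a‖| / ‖b‖ ≤ ‖a - b‖ / ‖b‖ + ‖a - b‖ / ‖b‖ := by gcongr
    _ = 2 / ‖b‖ * ‖a - b‖ := by ring

lemma cosA_eq (w d z : ℂ) : cosA w d z = ((z - w) / (‖z - w‖ : ℂ) / d).re := by
  unfold cosA
  have : (z - w) / (‖z - w‖ : ℂ) / d = (z - w) / d / ((‖z - w‖ : ℝ) : ℂ) := by
    simp only [div_eq_mul_inv]; ring
  rw [this, Complex.div_ofReal_re]

lemma norm_fderiv_cosA {w d z : ℂ} (hd : ‖d‖ = 1) (hz : z ≠ w) :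
    ‖fderiv ℝ (cosA w d) z‖ ≤ 2 / ‖z - w‖ := by
  have hz' : z - w ≠ 0 := sub_ne_zero.mpr hz
  apply norm_fderiv_le_of_lip' ℝ (by positivity)
  refine Eventually.of_forall fun y => ?_
  rw [cosA_eq, cosA_eq, ← Complex.sub_re]
  refine (Complex.abs_re_le_norm _).trans ?_
  rw [← sub_div, norm_div, hd, div_one]
  have := unit_diff (y - w) (z - w) hz'
  rwa [sub_sub_sub_cancel_right] at this

/-- the angular cut-off function: `1` where `cosA ≤ -u1`, `0` where `cosA ≥ -u2` -/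
noncomputable def ang (u1 u2 : ℝ) (w d z : ℂ) : ℝ :=
  Real.smoothTransition ((-cosA w d z - u2) / (u1 - u2))

lemma ang_nonneg (u1 u2 : ℝ) (w d z : ℂ) : 0 ≤ ang u1 u2 w d z := Real.smoothTransition.nonneg _

lemma ang_le_one (u1 u2 : ℝ) (w d z : ℂ) : ang u1 u2 w d z ≤ 1 := Real.smoothTransition.le_one _

lemma contDiffAt_ang (u1 u2 : ℝ) {w d z : ℂ} (hz : z ≠ w) (n : ℕ∞) :
    ContDiffAt ℝ n (ang u1 u2 w d) z := by
  unfold ang
  refine (Real.smoothTransition.contDiff (n := n)).contDiffAt.comp z ?_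
  exact (((contDiffAt_cosA hz n).neg.sub contDiffAt_const).div_const _)

lemma norm_fderiv_ang (u1 u2 : ℝ) : ∃ C : ℝ, 0 ≤ C ∧ ∀ w d z : ℂ, ‖d‖ = 1 → z ≠ w →
    ‖fderiv ℝ (ang u1 u2 w d) z‖ ≤ C / ‖z - w‖ := by
  obtain ⟨K, hK⟩ : ∃ K : ℝ, ∀ x ∈ Set.Icc (-1 : ℝ) 1,
      ‖deriv (fun x : ℝ => Real.smoothTransition ((-x - u2) / (u1 - u2))) x‖ ≤ K := by
    have hc : ContDiff ℝ 1 (fun x : ℝ => Real.smoothTransition ((-x - u2) / (u1 - u2))) := by
      refine (Real.smoothTransition.contDiff (n := 1)).comp ?_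
      fun_prop
    exact isCompact_Icc.exists_bound_of_continuousOn (hc.continuous_deriv le_rfl).continuousOn
  have hK0 : 0 ≤ K := (norm_nonneg _).trans (hK 0 (by norm_num))
  refine ⟨K * 2, by positivity, fun w d z hd hz => ?_⟩
  have hz' : z - w ≠ 0 := sub_ne_zero.mpr hz
  have hn : 0 < ‖z - w‖ := norm_pos_iff.mpr hz'
  have h1 : DifferentiableAt ℝ (cosA w d) z := (contDiffAt_cosA hz 1).differentiableAt one_ne_zero
  have h2 : DifferentiableAt ℝ (fun x : ℝ => Real.smoothTransition ((-x - u2) / (u1 - u2)))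
      (cosA w d z) := by
    have hc : ContDiff ℝ 1 (fun x : ℝ => Real.smoothTransition ((-x - u2) / (u1 - u2))) := by
      refine (Real.smoothTransition.contDiff (n := 1)).comp ?_
      fun_prop
    exact hc.contDiffAt.differentiableAt one_ne_zero
  have h3 : ang u1 u2 w d = (fun x : ℝ => Real.smoothTransition ((-x - u2) / (u1 - u2))) ∘
      cosA w d := rfl
  rw [h3, fderiv_comp z h2 h1]
  refine (ContinuousLinearMap.opNorm_comp_le _ _).trans ?_
  have h4 : ‖fderiv ℝ (fun x : ℝ => Real.smoothTransition ((-x - u2) / (u1 - u2))) (cosA w d z)‖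
      ≤ K := by
    rw [← norm_deriv_eq_norm_fderiv]
    apply hK
    have h5 : |cosA w d z| ≤ 1 := by
      rw [cosA_eq]
      refine (Complex.abs_re_le_norm _).trans ?_
      rw [norm_div, norm_div, hd, Complex.norm_real, norm_norm, div_one, div_self hn.ne']
    exact abs_le.mp h5
  calc _ ≤ K * (2 / ‖z - w‖) :=
        mul_le_mul h4 (norm_fderiv_cosA hd hz) (norm_nonneg _) hK0
    _ = K * 2 / ‖z - w‖ := by ring

end Pool.Agent.W402.HI.C1
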