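import Pool.Agent.W402.HI.C1a

/-!
Project HI, task C1, part b: the angular cut-off and cones.
-/

set_option autoImplicit false

open Filter Topology MeasureTheory Metric

namespace Pool.Agent.W402.HI.C1

noncomputable def u (θ : ℝ) : ℝ := (Real.sqrt (1 + θ ^ 2))⁻¹

lemma u_pos (θ : ℝ) : 0 < u θ := by unfold u; positivity

lemma u_sq (θ : ℝ) : u θ ^ 2 * (1 + θ ^ 2) = 1 := by
  unfold u
  rw [inv_pow, Real.sq_sqrt (by positivity)]
  field_simp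

lemma u_lt {θ : ℝ} (hθ : 0 < θ) : u (2 * θ) < u θ := by
  have h1 := u_sq θ
  have h2 := u_sq (2 * θ)
  by_contra h
  push Not at h
  have h3 : u θ ^ 2 ≤ u (2 * θ) ^ 2 := pow_le_pow_left₀ (u_pos θ).le h 2
  have h4 : 0 < u θ ^ 2 := by have := u_pos θ; positivity
  nlinarith [mul_pos h4 (pow_pos hθ 2)]

/-- the cut-off for the cone of opening `θ` around `-d` -/
noncomputable def cut (θ : ℝ) (w d z : ℂ) : ℝ := ang (u θ) (u (2 * θ)) w d z

lemma cut_nonneg (θ : ℝ) (w d z : ℂ) : 0 ≤ cut θ w d z := ang_nonneg _ _ _ _ _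

lemma cut_le_one (θ : ℝ) (w d z : ℂ) : cut θ w d z ≤ 1 := ang_le_one _ _ _ _ _

lemma contDiffAt_cut (θ : ℝ) {w d z : ℂ} (hz : z ≠ w) (n : ℕ∞) :
    ContDiffAt ℝ n (cut θ w d) z := contDiffAt_ang _ _ hz n

lemma norm_fderiv_cut (θ : ℝ) : ∃ C : ℝ, 0 ≤ C ∧ ∀ w d z : ℂ, ‖d‖ = 1 → z ≠ w →
    ‖fderiv ℝ (cut θ w d) z‖ ≤ C / ‖z - w‖ := norm_fderiv_ang _ _

lemma norm_quot {w d z : ℂ} (hd : ‖d‖ = 1) : ‖(z - w) / d‖ = ‖z - w‖ := by
  rw [norm_div, hd, div_one]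

lemma sq_eq {w d z : ℂ} (hd : ‖d‖ = 1) :
    ((z - w) / d).re ^ 2 + ((z - w) / d).im ^ 2 = ‖z - w‖ ^ 2 := by
  rw [← norm_quot hd, Complex.sq_norm, Complex.normSq_apply]
  ring

lemma cosA_mul {w d z : ℂ} (hz : z ≠ w) : cosA w d z * ‖z - w‖ = ((z - w) / d).re := by
  unfold cosA
  exact div_mul_cancel₀ _ (norm_ne_zero_iff.mpr (sub_ne_zero.mpr hz))

lemma cut_self (θ : ℝ) (hθ : 0 < θ) (w d : ℂ) : cut θ w d w = 0 := by
  unfold cut ang cosA
  apply Real.smoothTransition.zero_of_nonpos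
  have h1 := u_lt hθ
  have h2 := u_pos (2 * θ)
  simp only [sub_self, norm_zero, div_zero, neg_zero, zero_sub]
  exact div_nonpos_of_nonpos_of_nonneg (by linarith) (by linarith)

/-- continuity of the cosine -/
lemma contAt_cosA {w d z : ℂ} (hz : z ≠ w) : ContinuousAt (cosA w d) z :=
  (contDiffAt_cosA hz 0).continuousAt

/-- points with `- cos > u θ` -/
lemma lt_neg_cos {θ : ℝ} {w d z : ℂ} (hθ : 0 < θ) (hd : ‖d‖ = 1) (hz : z ≠ w)
    (h1 : ((z - w) / d).re < 0) (h2 : |((z - w) / d).im| < θ * |((z - w) / d).re|) :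
    u θ < -cosA w d z := by
  have hn : 0 < ‖z - w‖ := norm_pos_iff.mpr (sub_ne_zero.mpr hz)
  have h3 := sq_eq (w := w) (z := z) hd
  have h4 := cosA_mul (d := d) hz
  set x := ((z - w) / d).re
  set y := ((z - w) / d).im
  set n := ‖z - w‖
  set k := cosA w d z
  have h5 : y ^ 2 < θ ^ 2 * x ^ 2 := by
    have := pow_lt_pow_left₀ h2 (abs_nonneg _) two_ne_zero
    rwa [sq_abs, mul_pow, sq_abs] at this
  have h6 : n ^ 2 < x ^ 2 * (1 + θ ^ 2) := by nlinarith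
  by_contra hcon
  push Not at hcon
  have hk : 0 ≤ -k := by
    by_contra hk
    push Not at hk
    nlinarith
  have h7 : k ^ 2 ≤ u θ ^ 2 := by
    have := pow_le_pow_left₀ hk hcon 2
    rwa [neg_sq] at this
  have h8 : x ^ 2 = k ^ 2 * n ^ 2 := by rw [← h4]; ring
  have h9 := u_sq θ
  have h10 : k ^ 2 * (1 + θ ^ 2) ≤ 1 := by
    calc k ^ 2 * (1 + θ ^ 2) ≤ u θ ^ 2 * (1 + θ ^ 2) := by gcongr
      _ = 1 := h9
  have h11 : x ^ 2 * (1 + θ ^ 2) = n ^ 2 * (k ^ 2 * (1 + θ ^ 2)) := by rw [h8]; ring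
  have h12 : n ^ 2 * (k ^ 2 * (1 + θ ^ 2)) ≤ n ^ 2 * 1 := by gcongr
  linarith

/-- converse -/
lemma of_le_neg_cos {θ : ℝ} {w d z : ℂ} (hθ : 0 < θ) (hd : ‖d‖ = 1) (hz : z ≠ w)
    (h : u θ ≤ -cosA w d z) :
    ((z - w) / d).re < 0 ∧ |((z - w) / d).im| ≤ θ * |((z - w) / d).re| := by
  have hn : 0 < ‖z - w‖ := norm_pos_iff.mpr (sub_ne_zero.mpr hz)
  have h3 := sq_eq (w := w) (z := z) hd
  have h4 := cosA_mul (d := d) hz
  set x := ((z - w) / d).re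
  set y := ((z - w) / d).im
  set n := ‖z - w‖
  set k := cosA w d z
  have hu := u_pos θ
  have h9 := u_sq θ
  have hk : k < 0 := by linarith
  refine ⟨by rw [← h4]; exact mul_neg_of_neg_of_pos hk hn, ?_⟩
  have h7 : u θ ^ 2 ≤ k ^ 2 := by
    have := pow_le_pow_left₀ hu.le h 2
    rwa [neg_sq] at this
  have h8 : x ^ 2 = k ^ 2 * n ^ 2 := by rw [← h4]; ring
  have h10 : 1 ≤ k ^ 2 * (1 + θ ^ 2) := by
    calc 1 = u θ ^ 2 * (1 + θ ^ 2) := h9.symm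
      _ ≤ k ^ 2 * (1 + θ ^ 2) := by gcongr
  have h11 : x ^ 2 * (1 + θ ^ 2) = n ^ 2 * (k ^ 2 * (1 + θ ^ 2)) := by rw [h8]; ring
  have h12 : n ^ 2 * 1 ≤ n ^ 2 * (k ^ 2 * (1 + θ ^ 2)) := by gcongr
  have h13 : y ^ 2 ≤ (θ * |x|) ^ 2 := by
    rw [mul_pow, sq_abs]; nlinarith
  exact abs_le_of_sq_le_sq h13 (by positivity)

lemma cut_one_near {θ : ℝ} {w d z : ℂ} (hθ : 0 < θ) (hd : ‖d‖ = 1) (hz : z ≠ w)
    (h1 : ((z - w) / d).re < 0) (h2 : |((z - w) / d).im| < θ * |((z - w) / d).re|) :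
    ∀ᶠ y in 𝓝 z, cut θ w d y = 1 := by
  have h3 := lt_neg_cos hθ hd hz h1 h2
  have h4 := (contAt_cosA (d := d) hz).neg.eventually (lt_mem_nhds h3)
  filter_upwards [h4] with y hy
  rw [Pi.neg_apply] at hy
  unfold cut ang
  apply Real.smoothTransition.one_of_one_le
  rw [one_le_div (by linarith [u_lt hθ])]
  linarith

lemma cut_zero_near {θ : ℝ} {w d z : ℂ} (hθ : 0 < θ) (hz : z ≠ w)
    (h : -cosA w d z < u (2 * θ)) : ∀ᶠ y in 𝓝 z, cut θ w d y = 0 := by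
  have h4 := (contAt_cosA (d := d) hz).neg.eventually (gt_mem_nhds h)
  filter_upwards [h4] with y hy
  rw [Pi.neg_apply] at hy
  unfold cut ang
  apply Real.smoothTransition.zero_of_nonpos
  exact div_nonpos_of_nonpos_of_nonneg (by linarith) (by linarith [u_lt hθ])

lemma cut_zero_near' {θ : ℝ} {w d z : ℂ} (hθ : 0 < θ) (hz : z ≠ w)
    (h : 0 ≤ ((z - w) / d).re) : ∀ᶠ y in 𝓝 z, cut θ w d y = 0 := by
  apply cut_zero_near hθ hz
  have h1 : 0 ≤ cosA w d z := div_nonneg h (norm_nonneg _)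
  linarith [u_pos (2 * θ)]

lemma cut_ne_zero {θ : ℝ} {w d z : ℂ} (hθ : 0 < θ) (hd : ‖d‖ = 1) (h : cut θ w d z ≠ 0) :
    z ≠ w ∧ ((z - w) / d).re < 0 ∧ |((z - w) / d).im| ≤ 2 * θ * |((z - w) / d).re| := by
  have hz : z ≠ w := by
    rintro rfl
    exact h (cut_self θ hθ z d)
  refine ⟨hz, of_le_neg_cos (by positivity) hd hz ?_⟩
  by_contra hcon
  push Not at hcon
  exact h (cut_zero_near hθ hz hcon).self_of_nhds

lemma fderiv_cut_ne {θ : ℝ} {w d z : ℂ} (hθ : 0 < θ) (hd : ‖d‖ = 1) (hz : z ≠ w)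
    (h : fderiv ℝ (cut θ w d) z ≠ 0) :
    ((z - w) / d).re < 0 ∧ |((z - w) / d).im| ≤ 2 * θ * |((z - w) / d).re| ∧
      θ * |((z - w) / d).re| ≤ |((z - w) / d).im| := by
  have h1 : u (2 * θ) ≤ -cosA w d z := by
    by_contra hcon
    push Not at hcon
    have h2 : cut θ w d =ᶠ[𝓝 z] fun _ => 0 := cut_zero_near hθ hz hcon
    exact h (by rw [h2.fderiv_eq]; simp)
  obtain ⟨h2, h3⟩ := of_le_neg_cos (by positivity) hd hz h1
  refine ⟨h2, h3, ?_⟩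
  by_contra hcon
  push Not at hcon
  have h4 : cut θ w d =ᶠ[𝓝 z] fun _ => 1 := cut_one_near hθ hd hz h2 hcon
  exact h (by rw [h4.fderiv_eq]; simp)

/-- in a narrow cone the real part is governed by the cone coordinate -/
lemma re_of_cone {θ : ℝ} {w d z : ℂ} (hθ : 0 ≤ θ) (hd : ‖d‖ = 1) (hθd : 4 * θ ≤ d.re)
    (h : |((z - w) / d).im| ≤ 2 * θ * |((z - w) / d).re|) :
    (((z - w) / d).re ≤ 0 → z.re - w.re ≤ ((z - w) / d).re * (d.re / 2)) ∧
    (0 ≤ ((z - w) / d).re → ((z - w) / d).re * (d.re / 2) ≤ z.re - w.re) := by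
  have hd0 : d ≠ 0 := by
    intro h; rw [h, norm_zero] at hd; exact zero_ne_one hd
  have h1 : z - w = (z - w) / d * d := by field_simp
  have h2 : z.re - w.re = ((z - w) / d).re * d.re - ((z - w) / d).im * d.im := by
    rw [← Complex.sub_re]
    conv_lhs => rw [h1]
    rw [Complex.mul_re]
  set x := ((z - w) / d).re
  set y := ((z - w) / d).im
  have h3 : |d.im| ≤ 1 := hd ▸ Complex.abs_im_le_norm d
  have h4 : |y * d.im| ≤ 2 * θ * |x| := by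
    rw [abs_mul]
    calc |y| * |d.im| ≤ (2 * θ * |x|) * 1 := by gcongr
      _ = _ := mul_one _
  have h5 := abs_le.mp h4
  constructor
  · intro hx
    rw [abs_of_nonpos hx] at h5
    nlinarith
  · intro hx
    rw [abs_of_nonneg hx] at h5
    nlinarith

/-- in a narrow cone the cone coordinate is comparable with the norm -/
lemma norm_le_of_cone {θ : ℝ} {w d z : ℂ} (hθ : 0 ≤ θ) (hθ1 : 2 * θ ≤ 1) (hd : ‖d‖ = 1)
    (h : |((z - w) / d).im| ≤ 2 * θ * |((z - w) / d).re|) :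
    ‖z - w‖ ≤ 2 * |((z - w) / d).re| := by
  rw [← norm_quot hd]
  refine (Complex.norm_le_abs_re_add_abs_im _).trans ?_
  have : 2 * θ * |((z - w) / d).re| ≤ 1 * |((z - w) / d).re| := by gcongr
  linarith

end Pool.Agent.W402.HI.C1
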