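import Pool.Agent.W402.HI.C1b

/-!
Project HI, task C1, part c: the cut-off function.
-/

set_option autoImplicit false

open Filter Topology MeasureTheory Metric

namespace Pool.Agent.W402.HI.C1

/-- the parameters -/
structure Prm (Z : Finset ℂ) (dir : ℂ → ℂ) (c θ r ε R : ℝ) (b : ℕ) : Prop where
  hθ : 0 < θ
  hθ1 : 2 * θ ≤ 1
  dir1 : ∀ w ∈ Z, ‖dir w‖ = 1
  dirθ : ∀ w ∈ Z, 4 * θ ≤ (dir w).re
  hr : 0 < r
  hr1 : r ≤ 1
  sep : ∀ w ∈ Z, ∀ w' ∈ Z, w ≠ w' → 4 * r ≤ ‖w - w'‖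
  hε : 0 < ε
  onl : ∀ w ∈ Z, w.re = c
  hR : ∀ w ∈ Z, ‖w‖ + 2 * r ≤ R
  cone : ∀ s : ℂ, s ≠ 0 → |s.im| ≤ 2 * θ * |s.re| → 1 / 2 * (1 / ‖s‖) ^ b ≤ ((s⁻¹) ^ b).re

noncomputable def bet (R : ℝ) (z : ℂ) : ℝ := Real.smoothTransition (R ^ 2 + 1 - ‖z‖ ^ 2)

noncomputable def alp (r : ℝ) (w z : ℂ) : ℝ :=
  Real.smoothTransition ((r ^ 2 - ‖z - w‖ ^ 2) / (3 * r ^ 2 / 4))

noncomputable def lam (c ε : ℝ) (z : ℂ) : ℝ := Real.smoothTransition (2 * (c - ε / 2 - z.re) / ε)

noncomputable def chi (Z : Finset ℂ) (dir : ℂ → ℂ) (c θ r ε : ℝ) (z : ℂ) : ℝ :=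
  ∑ w ∈ Z, alp r w z * cut θ w (dir w) z + (∏ w ∈ Z, (1 - alp r w z)) * lam c ε z

noncomputable def PP (Z : Finset ℂ) (dir : ℂ → ℂ) (c θ r ε R : ℝ) (z : ℂ) : ℝ :=
  bet R z * chi Z dir c θ r ε z

noncomputable def QQ (Z : Finset ℂ) (dir : ℂ → ℂ) (b : ℕ) (z : ℂ) : ℂ :=
  ∑ w ∈ Z, (((z - w) / dir w)⁻¹) ^ b

noncomputable def gg (Z : Finset ℂ) (dir : ℂ → ℂ) (b : ℕ) (z : ℂ) : ℂ :=
  Complex.exp (-QQ Z dir b z)

noncomputable def FF (Z : Finset ℂ) (dir : ℂ → ℂ) (c θ r ε R : ℝ) (b : ℕ) (z : ℂ) : ℂ :=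
  ((PP Z dir c θ r ε R z : ℝ) : ℂ) * gg Z dir b z

/-! ### smoothness -/

lemma contDiff_bet (R : ℝ) (n : ℕ∞) : ContDiff ℝ n (bet R) := by
  unfold bet
  refine (Real.smoothTransition.contDiff (n := n)).comp ?_
  exact contDiff_const.sub (contDiff_norm_sq ℝ)

lemma contDiff_alp (r : ℝ) (w : ℂ) (n : ℕ∞) : ContDiff ℝ n (alp r w) := by
  unfold alp
  refine (Real.smoothTransition.contDiff (n := n)).comp ?_
  refine ContDiff.div_const ?_ _
  exact contDiff_const.sub ((contDiff_norm_sq ℝ).comp (contDiff_id.sub contDiff_const))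

lemma contDiff_lam (c ε : ℝ) (n : ℕ∞) : ContDiff ℝ n (lam c ε) := by
  unfold lam
  refine (Real.smoothTransition.contDiff (n := n)).comp ?_
  refine ContDiff.div_const ?_ _
  refine contDiff_const.mul ?_
  exact contDiff_const.sub Complex.reCLM.contDiff

variable {Z : Finset ℂ} {dir : ℂ → ℂ} {c θ r ε R : ℝ} {b : ℕ}

lemma contDiffAt_PP {z : ℂ} (hz : z ∉ Z) (n : ℕ∞) :
    ContDiffAt ℝ n (PP Z dir c θ r ε R) z := by
  unfold PP chi
  refine (contDiff_bet R n).contDiffAt.mul (ContDiffAt.add ?_ ?_)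
  · refine ContDiffAt.sum fun w hw => ?_
    have : z ≠ w := by rintro rfl; exact hz hw
    exact (contDiff_alp r w n).contDiffAt.mul (contDiffAt_cut θ this n)
  · refine ContDiffAt.mul ?_ (contDiff_lam c ε n).contDiffAt
    refine contDiffAt_prod fun w _ => ?_
    exact contDiffAt_const.sub (contDiff_alp r w n).contDiffAt

/-! ### values of the cut-offs -/

lemma bet_one {z : ℂ} (h : ‖z‖ ≤ R) : bet R z = 1 := by
  unfold bet
  apply Real.smoothTransition.one_of_one_le
  have := pow_le_pow_left₀ (norm_nonneg z) h 2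
  linarith

lemma bet_zero {z : ℂ} (h : R ^ 2 + 1 ≤ ‖z‖ ^ 2) : bet R z = 0 := by
  unfold bet
  apply Real.smoothTransition.zero_of_nonpos
  linarith

lemma alp_one (hr : 0 < r) {w z : ℂ} (h : ‖z - w‖ ≤ r / 2) : alp r w z = 1 := by
  unfold alp
  apply Real.smoothTransition.one_of_one_le
  rw [one_le_div (by positivity)]
  have := pow_le_pow_left₀ (norm_nonneg _) h 2
  nlinarith

lemma alp_zero (hr : 0 < r) {w z : ℂ} (h : r ≤ ‖z - w‖) : alp r w z = 0 := by
  unfold alp
  apply Real.smoothTransition.zero_of_nonpos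
  have := pow_le_pow_left₀ hr.le h 2
  exact div_nonpos_of_nonpos_of_nonneg (by linarith) (by positivity)

lemma lam_one (hε : 0 < ε) {z : ℂ} (h : z.re ≤ c - ε) : lam c ε z = 1 := by
  unfold lam
  apply Real.smoothTransition.one_of_one_le
  rw [one_le_div hε]
  linarith

lemma lam_zero (hε : 0 < ε) {z : ℂ} (h : c - ε / 2 ≤ z.re) : lam c ε z = 0 := by
  unfold lam
  apply Real.smoothTransition.zero_of_nonpos
  exact div_nonpos_of_nonpos_of_nonneg (by linarith) hε.le

lemma alp_other (hp : Prm Z dir c θ r ε R b) {w w' z : ℂ} (hw : w ∈ Z) (hw' : w' ∈ Z)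
    (hne : w ≠ w') (h : ‖z - w‖ < 2 * r) : alp r w' z = 0 := by
  apply alp_zero hp.hr
  have h1 := hp.sep w hw w' hw' hne
  have h2 : ‖w - w'‖ ≤ ‖z - w‖ + ‖z - w'‖ := by
    have : w - w' = -(z - w) + (z - w') := by ring
    rw [this]
    exact (norm_add_le _ _).trans (by rw [norm_neg])
  linarith [hp.hr]

/-- near a point of `Z` only the cone cut-off remains -/
lemma PP_near (hp : Prm Z dir c θ r ε R b) {w z : ℂ} (hw : w ∈ Z) (h : ‖z - w‖ < r / 2) :
    PP Z dir c θ r ε R z = cut θ w (dir w) z := by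
  have hr := hp.hr
  have h1 : bet R z = 1 := by
    apply bet_one
    have h2 : ‖z‖ ≤ ‖z - w‖ + ‖w‖ := by
      have : z = (z - w) + w := by ring
      conv_lhs => rw [this]
      exact norm_add_le _ _
    linarith [hp.hR w hw]
  unfold PP chi
  rw [h1, one_mul]
  rw [Finset.sum_eq_single w, Finset.prod_eq_zero hw, alp_one hr h.le]
  · ring
  · rw [alp_one hr h.le, sub_self]
  · intro w' hw' hne
    rw [alp_other hp hw hw' hne.symm (by linarith), zero_mul]
  · exact fun h => absurd hw h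

lemma PP_ne_zero (hp : Prm Z dir c θ r ε R b) {z : ℂ} (h : PP Z dir c θ r ε R z ≠ 0) :
    ‖z‖ ^ 2 ≤ R ^ 2 + 1 ∧ (z.re ≤ c - ε / 2 ∨ ∃ w ∈ Z, cut θ w (dir w) z ≠ 0) := by
  constructor
  · by_contra hcon
    push Not at hcon
    exact h (by unfold PP; rw [bet_zero hcon.le, zero_mul])
  · by_contra hcon
    push Not at hcon
    obtain ⟨h1, h2⟩ := hcon
    apply h
    unfold PP chi
    rw [lam_zero hp.hε h1.le, Finset.sum_eq_zero (fun w hw => by rw [h2 w hw, mul_zero])]
    ring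

/-- near the left part of the set the cut-off is `1` -/
lemma PP_one_near (hp : Prm Z dir c θ r ε R b) {p : ℂ} (hpR : ‖p‖ < R) (hpc : p.re < c)
    (h1 : ∀ w ∈ Z, ‖p - w‖ < 2 * r →
      |((p - w) / dir w).im| ≤ θ / 2 * |((p - w) / dir w).re|)
    (h2 : (∀ w ∈ Z, r / 4 ≤ ‖p - w‖) → p.re ≤ c - 2 * ε) :
    ∀ᶠ z in 𝓝 p, PP Z dir c θ r ε R z = 1 := by
  have hr := hp.hr
  have hθ := hp.hθ
  -- cone cut-offs
  have hcone : ∀ w ∈ Z, ‖p - w‖ < 2 * r → ∀ᶠ z in 𝓝 p, cut θ w (dir w) z = 1 := by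
    intro w hw hlt
    have hd := hp.dir1 w hw
    have h3 := h1 w hw hlt
    have hpw : p ≠ w := by
      rintro rfl
      exact absurd (hp.onl p hw) hpc.ne
    have h4 : |((p - w) / dir w).im| ≤ 2 * θ * |((p - w) / dir w).re| :=
      h3.trans (by gcongr; linarith)
    have h5 : ((p - w) / dir w).re < 0 := by
      by_contra hcon
      push Not at hcon
      have h6 := (re_of_cone hθ.le hd (hp.dirθ w hw) h4).2 hcon
      rw [hp.onl w hw] at h6
      have h7 : 0 ≤ ((p - w) / dir w).re * ((dir w).re / 2) :=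
        mul_nonneg hcon (by linarith [hp.dirθ w hw])
      linarith
    apply cut_one_near hθ hd hpw h5
    refine h3.trans_lt ?_
    have : 0 < |((p - w) / dir w).re| := abs_pos.mpr h5.ne
    nlinarith
  have hbet : ∀ᶠ z in 𝓝 p, bet R z = 1 := by
    filter_upwards [(continuous_norm.continuousAt (x := p)).eventually (gt_mem_nhds hpR)] with z hz
    exact bet_one (le_of_lt hz)
  by_cases hcase : ∃ w ∈ Z, ‖p - w‖ < r / 2
  · obtain ⟨w, hw, hlt⟩ := hcase
    have hball : ∀ᶠ z in 𝓝 p, ‖z - w‖ < r / 2 :=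
      (by fun_prop : ContinuousAt (fun z : ℂ => ‖z - w‖) p).eventually (gt_mem_nhds hlt)
    filter_upwards [hball, hcone w hw (by linarith)] with z hz1 hz2
    rw [PP_near hp hw hz1, hz2]
  · push Not at hcase
    have h3 : p.re ≤ c - 2 * ε := h2 fun w hw => by linarith [hcase w hw]
    have hlam : ∀ᶠ z in 𝓝 p, lam c ε z = 1 := by
      have : p.re < c - ε := by linarith [hp.hε]
      filter_upwards [(Complex.continuous_re.continuousAt (x := p)).eventually (gt_mem_nhds this)]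
        with z hz
      exact lam_one hp.hε (le_of_lt hz)
    have hw1 : ∀ w ∈ Z, ∀ᶠ z in 𝓝 p, alp r w z * cut θ w (dir w) z = alp r w z := by
      intro w hw
      by_cases hlt : ‖p - w‖ < 2 * r
      · filter_upwards [hcone w hw hlt] with z hz
        rw [hz, mul_one]
      · push Not at hlt
        have : ∀ᶠ z in 𝓝 p, r < ‖z - w‖ :=
          (by fun_prop : ContinuousAt (fun z : ℂ => ‖z - w‖) p).eventually
            (lt_mem_nhds (by linarith))
        filter_upwards [this] with z hz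
        rw [alp_zero hr hz.le, zero_mul]
    have hw2 := (Filter.eventually_all_finset Z).mpr hw1
    filter_upwards [hbet, hlam, hw2] with z hz1 hz2 hz3
    unfold PP chi
    rw [hz1, hz2, Finset.sum_congr rfl hz3, one_mul, mul_one]
    apply sum_prod
    intro i hi j hj hij
    by_cases hlt : ‖z - i‖ < 2 * r
    · exact Or.inr (alp_other hp hi hj hij hlt)
    · push Not at hlt
      exact Or.inl (alp_zero hr (by linarith))

/-- near the right part of the set the cut-off is `0` -/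
lemma PP_zero_near (hp : Prm Z dir c θ r ε R b) {p : ℂ} (hpc : c < p.re)
    (h1 : ∀ w ∈ Z, ‖p - w‖ < 2 * r →
      |((p - w) / dir w).im| ≤ θ / 2 * |((p - w) / dir w).re|) :
    ∀ᶠ z in 𝓝 p, PP Z dir c θ r ε R z = 0 := by
  have hr := hp.hr
  have hθ := hp.hθ
  have hlam : ∀ᶠ z in 𝓝 p, lam c ε z = 0 := by
    have : c - ε / 2 < p.re := by linarith [hp.hε]
    filter_upwards [(Complex.continuous_re.continuousAt (x := p)).eventually (lt_mem_nhds this)]
      with z hz
    exact lam_zero hp.hε (le_of_lt hz)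
  have hw1 : ∀ w ∈ Z, ∀ᶠ z in 𝓝 p, alp r w z * cut θ w (dir w) z = 0 := by
    intro w hw
    by_cases hlt : ‖p - w‖ < 2 * r
    · have hd := hp.dir1 w hw
      have h3 := h1 w hw hlt
      have hpw : p ≠ w := by
        rintro rfl
        exact absurd (hp.onl p hw) hpc.ne'
      have h4 : |((p - w) / dir w).im| ≤ 2 * θ * |((p - w) / dir w).re| :=
        h3.trans (by gcongr; linarith)
      have h5 : 0 ≤ ((p - w) / dir w).re := by
        by_contra hcon
        push Not at hcon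
        have h6 := (re_of_cone hθ.le hd (hp.dirθ w hw) h4).1 hcon.le
        rw [hp.onl w hw] at h6
        have h7 : ((p - w) / dir w).re * ((dir w).re / 2) ≤ 0 :=
          mul_nonpos_of_nonpos_of_nonneg hcon.le (by linarith [hp.dirθ w hw])
        linarith
      filter_upwards [cut_zero_near' hθ hpw h5] with z hz
      rw [hz, mul_zero]
    · push Not at hlt
      have : ∀ᶠ z in 𝓝 p, r < ‖z - w‖ :=
        (by fun_prop : ContinuousAt (fun z : ℂ => ‖z - w‖) p).eventually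
          (lt_mem_nhds (by linarith))
      filter_upwards [this] with z hz
      rw [alp_zero hr hz.le, zero_mul]
  have hw2 := (Filter.eventually_all_finset Z).mpr hw1
  filter_upwards [hlam, hw2] with z hz2 hz3
  unfold PP chi
  rw [hz2, Finset.sum_eq_zero hz3]
  ring

end Pool.Agent.W402.HI.C1
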