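import Pool.Agent.W402.HI.C1c

/-!
Project HI, task C1, part d: estimates.
-/

set_option autoImplicit false

open Filter Topology MeasureTheory Metric

namespace Pool.Agent.W402.HI.C1

variable {Z : Finset ℂ} {dir : ℂ → ℂ} {c θ r ε R : ℝ} {b : ℕ}

lemma dir_ne (hp : Prm Z dir c θ r ε R b) {w : ℂ} (hw : w ∈ Z) : dir w ≠ 0 := by
  intro h
  have := hp.dir1 w hw
  rw [h, norm_zero] at this
  exact zero_ne_one this

/-- the derivative of one summand -/
lemma hasDerivAt_term {w d z : ℂ} (hd : d ≠ 0) (hz : z ≠ w) (b : ℕ) :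
    HasDerivAt (fun z : ℂ => (((z - w) / d)⁻¹) ^ b)
      ((b : ℂ) * (((z - w) / d)⁻¹) ^ (b - 1) * (-(1 / d) / ((z - w) / d) ^ 2)) z := by
  have h1 : HasDerivAt (fun z : ℂ => (z - w) / d) (1 / d) z :=
    ((hasDerivAt_id z).sub_const w).div_const d
  have h2 : (z - w) / d ≠ 0 := div_ne_zero (sub_ne_zero.mpr hz) hd
  exact (h1.inv h2).pow b

lemma norm_term {w d z : ℂ} (hd : ‖d‖ = 1) (b : ℕ) :
    ‖(b : ℂ) * (((z - w) / d)⁻¹) ^ (b - 1) * (-(1 / d) / ((z - w) / d) ^ 2)‖ ≤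
      b * (1 / ‖z - w‖) ^ (b + 1) := by
  rcases Nat.eq_zero_or_pos b with rfl | hb
  · simp
  obtain ⟨b, rfl⟩ : ∃ b', b = b' + 1 := ⟨b - 1, by omega⟩
  rw [Nat.add_sub_cancel]
  rw [norm_mul, norm_mul, norm_pow, norm_inv, norm_div, norm_div, norm_neg, norm_div, norm_one, hd,
    norm_pow, norm_div, hd]
  simp only [div_one, Complex.norm_natCast, one_div]
  rw [pow_add, pow_succ, inv_pow]
  ring_nf
  exact le_refl _

/-- derivative of `QQ` -/
lemma deriv_QQ (hp : Prm Z dir c θ r ε R b) {z : ℂ} (hz : z ∉ Z) :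
    DifferentiableAt ℂ (QQ Z dir b) z ∧
      ‖deriv (QQ Z dir b) z‖ ≤ ∑ w ∈ Z, (b : ℝ) * (1 / ‖z - w‖) ^ (b + 1) := by
  have h1 : HasDerivAt (QQ Z dir b) (∑ w ∈ Z, ((b : ℂ) * (((z - w) / dir w)⁻¹) ^ (b - 1) *
      (-(1 / dir w) / ((z - w) / dir w) ^ 2))) z := by
    unfold QQ
    exact HasDerivAt.fun_sum fun w hw =>
      hasDerivAt_term (dir_ne hp hw) (by rintro rfl; exact hz hw) b
  refine ⟨h1.differentiableAt, ?_⟩
  rw [h1.deriv]
  exact norm_sum_le_of_le _ fun w hw => norm_term (hp.dir1 w hw) b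

lemma diff_gg (hp : Prm Z dir c θ r ε R b) {z : ℂ} (hz : z ∉ Z) :
    DifferentiableAt ℂ (gg Z dir b) z ∧
      ‖deriv (gg Z dir b) z‖ ≤ ‖gg Z dir b z‖ * ∑ w ∈ Z, (b : ℝ) * (1 / ‖z - w‖) ^ (b + 1) := by
  obtain ⟨h1, h2⟩ := deriv_QQ hp hz
  have h3 : HasDerivAt (gg Z dir b) (Complex.exp (-QQ Z dir b z) * (-deriv (QQ Z dir b) z)) z :=
    h1.hasDerivAt.neg.cexp
  refine ⟨h3.differentiableAt, ?_⟩
  rw [h3.deriv, norm_mul, norm_neg]
  exact mul_le_mul_of_nonneg_left h2 (norm_nonneg _)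

lemma gg_ne (z : ℂ) : gg Z dir b z ≠ 0 := Complex.exp_ne_zero _

/-- size of `gg` in the cone at `w` -/
lemma norm_gg (hp : Prm Z dir c θ r ε R b) {w z : ℂ} (hw : w ∈ Z) (hz : z ≠ w)
    (hlt : ‖z - w‖ < r) (hcone : |((z - w) / dir w).im| ≤ 2 * θ * |((z - w) / dir w).re|) :
    ‖gg Z dir b z‖ ≤ Real.exp (Z.card * (1 / (3 * r)) ^ b) *
      Real.exp (-(1 / 2 * (1 / ‖z - w‖) ^ b)) := by
  have hr := hp.hr
  unfold gg
  rw [Complex.norm_exp, ← Real.exp_add]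
  apply Real.exp_le_exp.mpr
  have hs : (z - w) / dir w ≠ 0 := div_ne_zero (sub_ne_zero.mpr hz) (dir_ne hp hw)
  have h1 := hp.cone _ hs hcone
  rw [norm_quot (hp.dir1 w hw)] at h1
  unfold QQ
  rw [← Finset.add_sum_erase Z _ hw, Complex.neg_re, Complex.add_re, Complex.re_sum]
  have h2 : ∀ w' ∈ Z.erase w, -(1 / (3 * r)) ^ b ≤ ((((z - w') / dir w')⁻¹) ^ b).re := by
    intro w' hw'
    obtain ⟨hne, hw'Z⟩ := Finset.mem_erase.mp hw'
    have h3 : ‖(((z - w') / dir w')⁻¹) ^ b‖ ≤ (1 / (3 * r)) ^ b := by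
      rw [norm_pow, norm_inv, norm_quot (hp.dir1 w' hw'Z), ← one_div]
      apply pow_le_pow_left₀ (by positivity)
      apply one_div_le_one_div_of_le (by positivity)
      have h4 := hp.sep w hw w' hw'Z hne.symm
      have h5 : ‖w - w'‖ ≤ ‖z - w‖ + ‖z - w'‖ := by
        have : w - w' = -(z - w) + (z - w') := by ring
        rw [this]
        exact (norm_add_le _ _).trans (by rw [norm_neg])
      linarith
    have h4 := abs_le.mp (Complex.abs_re_le_norm ((((z - w') / dir w')⁻¹) ^ b))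
    linarith [h4.1]
  have h3 : ∑ w' ∈ Z.erase w, (-(1 / (3 * r)) ^ b) ≤
      ∑ w' ∈ Z.erase w, ((((z - w') / dir w')⁻¹) ^ b).re := Finset.sum_le_sum h2
  rw [Finset.sum_const, nsmul_eq_mul] at h3
  have h4 : ((Z.erase w).card : ℝ) ≤ Z.card := by exact_mod_cast Finset.card_erase_le
  have h5 : 0 ≤ (1 / (3 * r)) ^ b := by positivity
  nlinarith

/-- the sum in the derivative of `gg` near `w` -/
lemma sum_near (hp : Prm Z dir c θ r ε R b) {w z : ℂ} (hw : w ∈ Z) (hz : z ≠ w)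
    (hlt : ‖z - w‖ < r) : ∑ w' ∈ Z, (b : ℝ) * (1 / ‖z - w'‖) ^ (b + 1) ≤
      (Z.card * b : ℝ) * (1 / ‖z - w‖) ^ (b + 1) := by
  have hr := hp.hr
  have hn : 0 < ‖z - w‖ := norm_pos_iff.mpr (sub_ne_zero.mpr hz)
  have h1 : ∀ w' ∈ Z, (b : ℝ) * (1 / ‖z - w'‖) ^ (b + 1) ≤ b * (1 / ‖z - w‖) ^ (b + 1) := by
    intro w' hw'
    by_cases hne : w = w'
    · rw [hne]
    apply mul_le_mul_of_nonneg_left _ (by positivity)
    apply pow_le_pow_left₀ (by positivity)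
    apply one_div_le_one_div_of_le hn
    have h4 := hp.sep w hw w' hw' hne
    have h5 : ‖w - w'‖ ≤ ‖z - w‖ + ‖z - w'‖ := by
      have : w - w' = -(z - w) + (z - w') := by ring
      rw [this]
      exact (norm_add_le _ _).trans (by rw [norm_neg])
    linarith
  refine (Finset.sum_le_sum h1).trans (le_of_eq ?_)
  rw [Finset.sum_const, nsmul_eq_mul]
  ring

/-- local form of `FF` -/
lemma FF_near (hp : Prm Z dir c θ r ε R b) {w z : ℂ} (hw : w ∈ Z) (h : ‖z - w‖ < r / 2) :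
    FF Z dir c θ r ε R b z = ((cut θ w (dir w) z : ℝ) : ℂ) * gg Z dir b z := by
  unfold FF
  rw [PP_near hp hw h]

lemma FF_near_ev (hp : Prm Z dir c θ r ε R b) {w z : ℂ} (hw : w ∈ Z) (h : ‖z - w‖ < r / 2) :
    FF Z dir c θ r ε R b =ᶠ[𝓝 z] fun z => ((cut θ w (dir w) z : ℝ) : ℂ) * gg Z dir b z := by
  have hball : ∀ᶠ y in 𝓝 z, ‖y - w‖ < r / 2 :=
    (by fun_prop : ContinuousAt (fun z : ℂ => ‖z - w‖) z).eventually (gt_mem_nhds h)
  filter_upwards [hball] with y hy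
  exact FF_near hp hw hy

lemma notMem_of_near (hp : Prm Z dir c θ r ε R b) {w z : ℂ} (hw : w ∈ Z) (hz : z ≠ w)
    (h : ‖z - w‖ < r / 2) : z ∉ Z := by
  intro hzZ
  have := hp.sep z hzZ w hw hz
  linarith [hp.hr]

/-- a real differentiable real function as a complex one -/
lemma fderiv_ofReal {f : ℂ → ℝ} {z : ℂ} (hf : DifferentiableAt ℝ f z) :
    HasFDerivAt (fun z => ((f z : ℝ) : ℂ)) (Complex.ofRealCLM ∘L fderiv ℝ f z) z :=
  Complex.ofRealCLM.hasFDerivAt.comp z hf.hasFDerivAt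

lemma norm_ofReal_comp (L : ℂ →L[ℝ] ℝ) : ‖Complex.ofRealCLM ∘L L‖ ≤ ‖L‖ := by
  refine ContinuousLinearMap.opNorm_le_bound _ (norm_nonneg _) fun v => ?_
  simp only [ContinuousLinearMap.coe_comp', Function.comp_apply, Complex.ofRealCLM_apply,
    Complex.norm_real]
  exact L.le_opNorm v

/-- estimates near a point of `Z` -/
lemma near_est (hp : Prm Z dir c θ r ε R b) (A : ℕ) (hb : A + 2 ≤ b) (C : ℝ) (hC : 0 ≤ C) :
    ∃ M : ℝ, 0 ≤ M ∧ ∀ w ∈ Z, ∀ z : ℂ, z ≠ w → ‖z - w‖ < r / 2 →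
      ‖FF Z dir c θ r ε R b z‖ ≤ M * ‖z - w‖ ^ 2 ∧
      DifferentiableAt ℝ (FF Z dir c θ r ε R b) z ∧
      ‖fderiv ℝ (FF Z dir c θ r ε R b) z‖ ≤ M ∧
      ‖D (FF Z dir c θ r ε R b) z‖ * Real.exp (C / ‖z - w‖ ^ A) ≤ M * ‖z - w‖ ∧
      (D (FF Z dir c θ r ε R b) z ≠ 0 → ((z - w) / dir w).re < 0 ∧
        |((z - w) / dir w).im| ≤ 2 * θ * |((z - w) / dir w).re| ∧
        θ * |((z - w) / dir w).re| ≤ |((z - w) / dir w).im|) := by
  have hr := hp.hr
  obtain ⟨K, hK0, hK⟩ := norm_fderiv_cut θ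
  set E0 := Real.exp (Z.card * (1 / (3 * r)) ^ b) with hE0
  have hE0p : 0 < E0 := Real.exp_pos _
  obtain ⟨M1, hM1, h1⟩ := exp_bound A b (b + 3) hb C hC
  set ZB : ℝ := (Z.card * b : ℝ) with hZB
  have hZB0 : 0 ≤ ZB := by positivity
  refine ⟨E0 * M1 * (1 + ZB + 2 * K), by positivity, fun w hw z hz hlt => ?_⟩
  have hn : 0 < ‖z - w‖ := norm_pos_iff.mpr (sub_ne_zero.mpr hz)
  have hn1 : ‖z - w‖ ≤ 1 := by linarith [hp.hr1]
  set ρ := ‖z - w‖ with hρ
  have hzZ := notMem_of_near hp hw hz hlt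
  have hd1 := hp.dir1 w hw
  -- basic quantities
  set e := Real.exp (-(1 / 2 * (1 / ρ) ^ b)) with he
  have he0 : 0 < e := Real.exp_pos _
  have hX : 1 ≤ Real.exp (C / ρ ^ A) := Real.one_le_exp (by positivity)
  have hρ1 : 1 ≤ 1 / ρ := (one_le_div hn).mpr hn1
  -- `e * (1/ρ)^j ≤ M1 * ρ^(b+3-j)`
  have key : ∀ j : ℕ, j ≤ b + 3 →
      e * (1 / ρ) ^ j * Real.exp (C / ρ ^ A) ≤ M1 * ρ ^ (b + 3 - j) := by
    intro j hj
    have h2 := h1 ρ hn hn1
    have h3 : (1 / ρ) ^ (b + 3) = (1 / ρ) ^ j * (1 / ρ) ^ (b + 3 - j) := by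
      rw [← pow_add]; congr 1; omega
    rw [h3] at h2
    have h4 : (1 / ρ) ^ (b + 3 - j) * ρ ^ (b + 3 - j) = 1 := by
      rw [← mul_pow, one_div_mul_cancel hn.ne', one_pow]
    have h5 : e * (1 / ρ) ^ j * Real.exp (C / ρ ^ A) =
        (e * ((1 / ρ) ^ j * (1 / ρ) ^ (b + 3 - j)) * Real.exp (C / ρ ^ A)) * ρ ^ (b + 3 - j) := by
      linear_combination (- e * (1 / ρ) ^ j * Real.exp (C / ρ ^ A)) * h4
    rw [h5]
    exact mul_le_mul_of_nonneg_right h2 (by positivity)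
  have key' : ∀ j : ℕ, j ≤ b + 3 → e * (1 / ρ) ^ j ≤ M1 * ρ ^ (b + 3 - j) := by
    intro j hj
    refine le_trans ?_ (key j hj)
    have : 0 ≤ e * (1 / ρ) ^ j := by positivity
    nlinarith
  have hpow : ∀ j k : ℕ, j ≤ k → ρ ^ k ≤ ρ ^ j := fun j k hjk =>
    pow_le_pow_of_le_one hn.le hn1 hjk
  have hcut := contDiffAt_cut θ (d := dir w) hz 1
  have hcutd : DifferentiableAt ℝ (cut θ w (dir w)) z := hcut.differentiableAt one_ne_zero
  obtain ⟨hgd, hgn⟩ := diff_gg hp hzZ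
  have hgn' : ‖deriv (gg Z dir b) z‖ ≤ ‖gg Z dir b z‖ * (ZB * (1 / ρ) ^ (b + 1)) :=
    hgn.trans (mul_le_mul_of_nonneg_left (sum_near hp hw hz (by linarith)) (norm_nonneg _))
  have hev := FF_near_ev (r := r) hp hw hlt
  have hgdR : DifferentiableAt ℝ (gg Z dir b) z := hgd.restrictScalars ℝ
  have hcc := fderiv_ofReal hcutd
  have hF : HasFDerivAt (FF Z dir c θ r ε R b)
      (((cut θ w (dir w) z : ℝ) : ℂ) • fderiv ℝ (gg Z dir b) z +
        gg Z dir b z • (Complex.ofRealCLM ∘L fderiv ℝ (cut θ w (dir w)) z)) z :=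
    (hcc.fun_mul hgdR.hasFDerivAt).congr_of_eventuallyEq hev
  have hgfd : ‖fderiv ℝ (gg Z dir b) z‖ ≤ ‖deriv (gg Z dir b) z‖ := by
    have h3 : fderiv ℝ (gg Z dir b) z = (fderiv ℂ (gg Z dir b) z).restrictScalars ℝ :=
      (hgd.hasFDerivAt.restrictScalars ℝ).fderiv
    rw [h3, ContinuousLinearMap.norm_restrictScalars, norm_deriv_eq_norm_fderiv]
  have hD : D (FF Z dir c θ r ε R b) z =
      D (fun z => ((cut θ w (dir w) z : ℝ) : ℂ)) z * gg Z dir b z := by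
    rw [D_congr hev]
    exact D_mul hcc.differentiableAt hgd
  have hDn : ‖D (fun z => ((cut θ w (dir w) z : ℝ) : ℂ)) z‖ ≤
      2 * ‖fderiv ℝ (cut θ w (dir w)) z‖ := by
    refine (D_norm_le _ _).trans ?_
    rw [hcc.fderiv]
    exact mul_le_mul_of_nonneg_left (norm_ofReal_comp _) (by norm_num)
  have hfK := hK w (dir w) z hd1 hz
  have hcut01 : |cut θ w (dir w) z| ≤ 1 := by
    rw [abs_of_nonneg (cut_nonneg _ _ _ _)]; exact cut_le_one _ _ _ _
  -- bound for `gg` where the cut-off lives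
  have hg1 : |((z - w) / dir w).im| ≤ 2 * θ * |((z - w) / dir w).re| →
      ‖gg Z dir b z‖ ≤ E0 * e := norm_gg hp hw hz (by linarith)
  have hE : 0 ≤ E0 * M1 := by positivity
  refine ⟨?_, hF.differentiableAt, ?_, ?_, ?_⟩
  · rw [FF_near hp hw hlt, norm_mul, Complex.norm_real, Real.norm_eq_abs]
    by_cases h0 : cut θ w (dir w) z = 0
    · rw [h0, abs_zero, zero_mul]; positivity
    · have h2 := hg1 (cut_ne_zero hp.hθ hd1 h0).2.2
      have h3 := key' 0 (by omega)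
      rw [pow_zero, mul_one, Nat.sub_zero] at h3
      calc |cut θ w (dir w) z| * ‖gg Z dir b z‖ ≤ 1 * (E0 * e) := by gcongr
        _ ≤ E0 * (M1 * ρ ^ (b + 3)) := by rw [one_mul]; gcongr
        _ ≤ E0 * (M1 * ρ ^ 2) := by gcongr 2; exact hpow 2 (b + 3) (by omega)
        _ ≤ E0 * M1 * (1 + ZB + 2 * K) * ρ ^ 2 := by
            have : 0 ≤ E0 * M1 * ρ ^ 2 := by positivity
            nlinarith [mul_nonneg this hZB0, mul_nonneg this hK0]
  · rw [hF.fderiv]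
    refine (norm_add_le _ _).trans ?_
    rw [norm_smul, norm_smul, Complex.norm_real, Real.norm_eq_abs]
    have hA1 : |cut θ w (dir w) z| * ‖fderiv ℝ (gg Z dir b) z‖ ≤ E0 * M1 * ZB := by
      by_cases h0 : cut θ w (dir w) z = 0
      · rw [h0, abs_zero, zero_mul]; positivity
      · have h2 := hg1 (cut_ne_zero hp.hθ hd1 h0).2.2
        have h3 := key' (b + 1) (by omega)
        have h4 : ρ ^ (b + 3 - (b + 1)) ≤ 1 := pow_le_one₀ hn.le hn1
        calc |cut θ w (dir w) z| * ‖fderiv ℝ (gg Z dir b) z‖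
            ≤ 1 * (‖gg Z dir b z‖ * (ZB * (1 / ρ) ^ (b + 1))) := by
              gcongr; exact hgfd.trans hgn'
          _ ≤ (E0 * e) * (ZB * (1 / ρ) ^ (b + 1)) := by rw [one_mul]; gcongr
          _ = E0 * ZB * (e * (1 / ρ) ^ (b + 1)) := by ring
          _ ≤ E0 * ZB * (M1 * 1) := by
              apply mul_le_mul_of_nonneg_left _ (by positivity)
              exact h3.trans (mul_le_mul_of_nonneg_left h4 hM1)
          _ = E0 * M1 * ZB := by ring
    have hA2 : ‖gg Z dir b z‖ * ‖Complex.ofRealCLM ∘L fderiv ℝ (cut θ w (dir w)) z‖ ≤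
        E0 * M1 * K := by
      by_cases h0 : fderiv ℝ (cut θ w (dir w)) z = 0
      · rw [h0, ContinuousLinearMap.comp_zero, norm_zero, mul_zero]; positivity
      · have h2 := hg1 (fderiv_cut_ne hp.hθ hd1 hz h0).2.1
        have h3 := key' 1 (by omega)
        have h4 : ρ ^ (b + 3 - 1) ≤ 1 := pow_le_one₀ hn.le hn1
        calc ‖gg Z dir b z‖ * ‖Complex.ofRealCLM ∘L fderiv ℝ (cut θ w (dir w)) z‖
            ≤ (E0 * e) * (K / ρ) := by
              gcongr; exact (norm_ofReal_comp _).trans hfK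
          _ = E0 * K * (e * (1 / ρ) ^ 1) := by rw [pow_one]; ring
          _ ≤ E0 * K * (M1 * 1) := by
              apply mul_le_mul_of_nonneg_left _ (by positivity)
              exact h3.trans (mul_le_mul_of_nonneg_left h4 hM1)
          _ = E0 * M1 * K := by ring
    nlinarith [mul_nonneg hE hK0]
  · rw [hD, norm_mul]
    by_cases h0 : fderiv ℝ (cut θ w (dir w)) z = 0
    · have : ‖D (fun z => ((cut θ w (dir w) z : ℝ) : ℂ)) z‖ ≤ 0 := by
        refine hDn.trans ?_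
        rw [h0, norm_zero, mul_zero]
      rw [le_antisymm this (norm_nonneg _), zero_mul, zero_mul]
      positivity
    · have h2 := hg1 (fderiv_cut_ne hp.hθ hd1 hz h0).2.1
      have h3 := key 1 (by omega)
      calc ‖D (fun z => ((cut θ w (dir w) z : ℝ) : ℂ)) z‖ * ‖gg Z dir b z‖ *
            Real.exp (C / ρ ^ A)
          ≤ (2 * (K / ρ)) * (E0 * e) * Real.exp (C / ρ ^ A) := by
            gcongr
            exact hDn.trans (by gcongr)
        _ = 2 * K * E0 * (e * (1 / ρ) ^ 1 * Real.exp (C / ρ ^ A)) := by rw [pow_one]; ring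
        _ ≤ 2 * K * E0 * (M1 * ρ ^ 1) := by
            apply mul_le_mul_of_nonneg_left _ (by positivity)
            exact h3.trans (mul_le_mul_of_nonneg_left (hpow 1 _ (by omega)) hM1)
        _ ≤ E0 * M1 * (1 + ZB + 2 * K) * ρ := by
            rw [pow_one]
            have : 0 ≤ E0 * M1 * ρ := by positivity
            nlinarith [mul_nonneg this hZB0, mul_nonneg this hK0]
  · intro hDne
    have h0 : fderiv ℝ (cut θ w (dir w)) z ≠ 0 := by
      intro h0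
      apply hDne
      rw [hD]
      have : ‖D (fun z => ((cut θ w (dir w) z : ℝ) : ℂ)) z‖ ≤ 0 := by
        refine hDn.trans ?_
        rw [h0, norm_zero, mul_zero]
      rw [norm_le_zero_iff.mp this, zero_mul]
    exact fderiv_cut_ne hp.hθ hd1 hz h0

end Pool.Agent.W402.HI.C1
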