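import Mathlib

/-!
Project HI (helper402): hyperinvariant subspaces of perturbations of operators whose spectrum lies on a
rectifiable curve.  Definitions and the statements of the tasks.
-/

set_option autoImplicit false

open Filter Topology MeasureTheory Metric

namespace Pool.Agent.W402.HI

/-- `T` has a nontrivial closed hyperinvariant subspace -/
def HasHyp {X : Type} [NormedAddCommGroup X] [NormedSpace ℂ X] (T : X →L[ℂ] X) : Prop :=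
  ∃ V : Submodule ℂ X, IsClosed (V : Set X) ∧ V ≠ ⊥ ∧ V ≠ ⊤ ∧
    ∀ Q : X →L[ℂ] X, Q * T = T * Q → ∀ x ∈ V, Q x ∈ V

/-- `T` is a scalar multiple of the identity -/
def IsScalar {X : Type} [NormedAddCommGroup X] [NormedSpace ℂ X] (T : X →L[ℂ] X) : Prop :=
  ∃ c : ℂ, T = c • (1 : X →L[ℂ] X)

/-- twice the Cauchy-Riemann operator: `D F = ∂_x F + i ∂_y F` -/
noncomputable def D (F : ℂ → ℂ) (z : ℂ) : ℂ :=
  fderiv ℝ F z 1 + Complex.I * fderiv ℝ F z Complex.I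

/-- test functions: differentiable, bounded derivative, compact support -/
structure Tst (F : ℂ → ℂ) : Prop where
  diff : Differentiable ℝ F
  bd : ∃ C : ℝ, ∀ z, ‖fderiv ℝ F z‖ ≤ C
  supp : HasCompactSupport F

/-! ### A. The separation theorem -/

/-- A1: Stokes -/
def P_A1 : Prop := ∀ F : ℂ → ℂ, Tst F → ∫ z : ℂ, D F z = 0

/-- A2: Cauchy integral off the support -/
def P_A2 : Prop := ∀ F : ℂ → ℂ, Tst F → ∀ ζ : ℂ, ζ ∉ tsupport F →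
  ∫ z : ℂ, D F z / (z - ζ) = 0

/-- A3: Cauchy integral at a point where `F` is holomorphic and does not vanish -/
def P_A3 : Prop := ∀ F : ℂ → ℂ, Tst F → ∀ μ : ℂ, F μ ≠ 0 → (∀ᶠ z in 𝓝 μ, D F z = 0) →
  ∫ z : ℂ, D F z / (z - μ) ≠ 0

/-- A4: the separation theorem -/
def P_A4 : Prop := ∀ (X : Type) [NormedAddCommGroup X] [NormedSpace ℂ X] [CompleteSpace X]
  (T : X →L[ℂ] X) (c : ℝ) (Z : Set ℂ), Z.Countable →
  ∀ F₁ F₂ : ℂ → ℂ, Tst F₁ → Tst F₂ →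
  (∀ z ∈ tsupport F₁, z.re < c ∨ z ∈ Z) → (∀ z ∈ tsupport F₂, c < z.re ∨ z ∈ Z) →
  (∀ z ∈ Z, z.re = c) →
  (∀ z, D F₁ z ≠ 0 → z ∈ resolventSet ℂ T) → (∀ z, D F₂ z ≠ 0 → z ∈ resolventSet ℂ T) →
  (∃ M : ℝ, ∀ z, ‖D F₁ z‖ * (1 + ‖resolvent T z‖) ≤ M * |z.re - c|) →
  (∃ M : ℝ, ∀ z, ‖D F₂ z‖ * (1 + ‖resolvent T z‖) ≤ M * |z.re - c|) →
  (∃ μ ∈ spectrum ℂ T, F₁ μ ≠ 0 ∧ ∀ᶠ z in 𝓝 μ, D F₁ z = 0) →
  (∃ μ ∈ spectrum ℂ T, F₂ μ ≠ 0 ∧ ∀ᶠ z in 𝓝 μ, D F₂ z = 0) →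
  HasHyp T

/-! ### B. Generic vertical lines -/

/-- `E` is tangent at `w` to the line `w + ℝ d` -/
def TangentAt (E : Set ℂ) (w d : ℂ) : Prop :=
  ∀ θ : ℝ, 0 < θ → ∃ r : ℝ, 0 < r ∧ ∀ z ∈ E, ‖z - w‖ < r →
    |((z - w) / d).im| ≤ θ * |((z - w) / d).re|

/-- the vertical line `Re z = c` meets `E` in finitely many points, not tangentially -/
def GoodLine (E : Set ℂ) (c : ℝ) (Z : Finset ℂ) (dir : ℂ → ℂ) : Prop :=
  (∀ z : ℂ, z ∈ Z ↔ z ∈ E ∧ z.re = c) ∧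
  ∀ w ∈ Z, ‖dir w‖ = 1 ∧ 0 < (dir w).re ∧ TangentAt E w (dir w)

/-- B1: almost every vertical line is good for a rectifiable curve -/
def P_B1 : Prop := ∀ (γ : ℝ → ℂ) (K : NNReal), LipschitzWith K γ → ∀ a b : ℝ, a < b →
  ∃ c ∈ Set.Ioo a b, ∃ (Z : Finset ℂ) (dir : ℂ → ℂ), GoodLine (γ '' Set.Icc 0 1) c Z dir

/-! ### C. The cut-off functions -/

/-- growth of order `A` of `N` at `w` outside the cones about the direction `d` -/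
def ConeGrowth (N : ℂ → ℝ) (w d : ℂ) (A : ℕ) : Prop :=
  ∀ θ : ℝ, 0 < θ → ∃ C r : ℝ, 0 < r ∧ ∀ z : ℂ, z ≠ w → ‖z - w‖ < r →
    θ * |((z - w) / d).re| ≤ |((z - w) / d).im| → N z ≤ Real.exp (C / ‖z - w‖ ^ A)

/-- C1: the cut-off function for the part of `E` on the left of the line -/
def P_C1 : Prop := ∀ (E : Set ℂ), IsCompact E → ∀ (c : ℝ) (Z : Finset ℂ) (dir : ℂ → ℂ),
  GoodLine E c Z dir → ∀ (N : ℂ → ℝ) (A : ℕ), (∀ z, 0 ≤ N z) → ContinuousOn N Eᶜ →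
  (∀ w ∈ Z, ConeGrowth N w (dir w) A) →
  ∃ F : ℂ → ℂ, Tst F ∧ (∀ z ∈ tsupport F, z.re < c ∨ z ∈ Z) ∧ (∀ z, D F z ≠ 0 → z ∉ E) ∧
    (∃ M : ℝ, ∀ z, ‖D F z‖ * (1 + N z) ≤ M * |z.re - c|) ∧
    (∀ p ∈ E, p.re < c → F p ≠ 0 ∧ ∀ᶠ z in 𝓝 p, D F z = 0)

/-- C2: the same on the right -/
def P_C2 : Prop := ∀ (E : Set ℂ), IsCompact E → ∀ (c : ℝ) (Z : Finset ℂ) (dir : ℂ → ℂ),
  GoodLine E c Z dir → ∀ (N : ℂ → ℝ) (A : ℕ), (∀ z, 0 ≤ N z) → ContinuousOn N Eᶜ →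
  (∀ w ∈ Z, ConeGrowth N w (dir w) A) →
  ∃ F : ℂ → ℂ, Tst F ∧ (∀ z ∈ tsupport F, c < z.re ∨ z ∈ Z) ∧ (∀ z, D F z ≠ 0 → z ∉ E) ∧
    (∃ M : ℝ, ∀ z, ‖D F z‖ * (1 + N z) ≤ M * |z.re - c|) ∧
    (∀ p ∈ E, c < p.re → F p ≠ 0 ∧ ∀ᶠ z in 𝓝 p, D F z = 0)

/-- C3: operators with spectrum on a rectifiable curve whose resolvent has growth of finite order at
the tangent points outside cones -/
def P_C3 : Prop := ∀ (X : Type) [NormedAddCommGroup X] [NormedSpace ℂ X] [CompleteSpace X]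
  (T : X →L[ℂ] X) (γ : ℝ → ℂ) (K : NNReal), LipschitzWith K γ →
  (spectrum ℂ T ⊆ γ '' Set.Icc 0 1) → (spectrum ℂ T).Nontrivial →
  (∃ A : ℕ, ∀ w ∈ γ '' Set.Icc 0 1, ∀ d : ℂ, ‖d‖ = 1 → TangentAt (γ '' Set.Icc 0 1) w d →
    ConeGrowth (fun z => ‖resolvent T z‖) w d A) → HasHyp T

/-! ### D. Zero-free functions in a sector -/

/-- D1: Harnack's inequality -/
def P_D1 : Prop := ∀ (f : ℂ → ℂ) (a : ℂ) (R M : ℝ), 0 < R → DifferentiableOn ℂ f (ball a R) →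
  (∀ z ∈ ball a R, f z ≠ 0) → (∀ z ∈ ball a R, ‖f z‖ ≤ Real.exp M) →
  ∀ z ∈ closedBall a (R / 2), M - Real.log ‖f z‖ ≤ 9 * (M - Real.log ‖f a‖)

/-- the truncated sector -/
def Sect (θ ρ r : ℝ) : Set ℂ := {z | θ / 4 * |z.re| < z.im ∧ θ * ρ / 8 < ‖z‖ ∧ ‖z‖ < 2 * r}

/-- D2: lower bound for zero-free functions in a truncated sector -/
def P_D2 : Prop := ∀ θ : ℝ, 0 < θ → θ ≤ 1 → ∃ C : ℝ, 0 ≤ C ∧ ∀ (f : ℂ → ℂ) (r ρ M : ℝ), 0 < ρ →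
  ρ ≤ r → 0 ≤ M → DifferentiableOn ℂ f (Sect θ ρ r) → (∀ z ∈ Sect θ ρ r, f z ≠ 0) →
  (∀ z ∈ Sect θ ρ r, ‖f z‖ ≤ Real.exp M) → Real.exp (-M) ≤ ‖f (r * Complex.I)‖ →
  ∀ z : ℂ, ‖z‖ = ρ → θ * |z.re| ≤ z.im → Real.exp (-(C * (r / ρ) ^ 8 * M)) ≤ ‖f z‖

/-! ### E. Finite rank perturbations -/

/-- E1: determinants and inverses in finite dimension -/
def P_E1 : Prop := ∀ (F : Type) [NormedAddCommGroup F] [NormedSpace ℂ F] [FiniteDimensional ℂ F]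
  (N : F →L[ℂ] F), ‖LinearMap.det (N : F →ₗ[ℂ] F)‖ ≤ ‖N‖ ^ Module.finrank ℂ F ∧
  (LinearMap.det (N : F →ₗ[ℂ] F) ≠ 0 → ∃ N' : F →L[ℂ] F, N' * N = 1 ∧ N * N' = 1 ∧
    ‖N'‖ ≤ 2 ^ Module.finrank ℂ F * (1 + ‖N‖) ^ Module.finrank ℂ F /
      ‖LinearMap.det (N : F →ₗ[ℂ] F)‖)

/-- E2: the perturbation determinant -/
def P_E2 : Prop := ∀ (X : Type) [NormedAddCommGroup X] [NormedSpace ℂ X] [CompleteSpace X]
  (S G : X →L[ℂ] X) (m : ℕ) (B : ℝ) (U : Set ℂ), 1 ≤ B → IsOpen U →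
  FiniteDimensional ℂ (LinearMap.range (G : X →ₗ[ℂ] X)) →
  Module.finrank ℂ (LinearMap.range (G : X →ₗ[ℂ] X)) ≤ m → ‖G‖ ≤ B →
  (∀ z ∈ U, z ∈ resolventSet ℂ S ∧ ‖resolvent S z‖ ≤ B) →
  ∃ f : ℂ → ℂ, DifferentiableOn ℂ f U ∧ (∀ z ∈ U, ‖f z‖ ≤ (1 + B ^ 2) ^ m) ∧
    ∀ z ∈ U, z ∈ resolventSet ℂ (S + G) → f z ≠ 0 ∧
      ‖f z‖⁻¹ ≤ (1 + B * ‖resolvent (S + G) z‖) ^ m ∧
      ‖resolvent (S + G) z‖ ≤ B + B ^ 3 * (2 ^ m * (2 + B ^ 2) ^ m) / ‖f z‖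

/-- `K` is approximable by operators of small rank relative to the growth of the resolvent of `S` -/
def Pert {X : Type} [NormedAddCommGroup X] [NormedSpace ℂ X] (S K : X →L[ℂ] X) (E : Set ℂ)
    (C : ℝ) (p : ℕ) : Prop :=
  ∀ δ : ℝ, 0 < δ → δ ≤ 1 → ∃ G : X →L[ℂ] X,
    FiniteDimensional ℂ (LinearMap.range (G : X →ₗ[ℂ] X)) ∧
    (Module.finrank ℂ (LinearMap.range (G : X →ₗ[ℂ] X)) : ℝ) ≤ C / δ ^ p ∧ ‖K - G‖ ≤ C ∧
    ∀ z : ℂ, δ ≤ infDist z E → z ∈ resolventSet ℂ S ∧ ‖K - G‖ * ‖resolvent S z‖ ≤ 1 / 2 ∧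
      ‖resolvent S z‖ ≤ Real.exp (C / δ ^ p)

/-- E3: growth of the resolvent of the perturbed operator outside cones -/
def P_E3 : Prop := ∀ (X : Type) [NormedAddCommGroup X] [NormedSpace ℂ X] [CompleteSpace X]
  (S K : X →L[ℂ] X) (E : Set ℂ) (C : ℝ) (p : ℕ), IsCompact E → Pert S K E C p →
  spectrum ℂ (S + K) ⊆ E → ∃ A : ℕ, ∀ w ∈ E, ∀ d : ℂ, ‖d‖ = 1 → TangentAt E w d →
    ConeGrowth (fun z => ‖resolvent (S + K) z‖) w d A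

/-- E4: eigenvalues outside `E` -/
def P_E4 : Prop := ∀ (X : Type) [NormedAddCommGroup X] [NormedSpace ℂ X] [CompleteSpace X]
  (S K : X →L[ℂ] X), IsCompactOperator K → ¬ IsScalar (S + K) →
  ∀ z : ℂ, z ∈ resolventSet ℂ S → z ∈ spectrum ℂ (S + K) → HasHyp (S + K)

/-- polynomial decay of the approximation numbers -/
def ApproxDecay {X : Type} [NormedAddCommGroup X] [NormedSpace ℂ X] (K : X →L[ℂ] X) : Prop :=
  ∃ C ε : ℝ, 0 < ε ∧ ∀ m : ℕ, 1 ≤ m → ∃ G : X →L[ℂ] X,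
    FiniteDimensional ℂ (LinearMap.range (G : X →ₗ[ℂ] X)) ∧
    Module.finrank ℂ (LinearMap.range (G : X →ₗ[ℂ] X)) ≤ m ∧ ‖K - G‖ ≤ C / (m : ℝ) ^ ε

/-- E5: such an operator is compact, and `Pert` holds if the resolvent of `S` grows polynomially -/
def P_E5 : Prop := ∀ (X : Type) [NormedAddCommGroup X] [NormedSpace ℂ X] [CompleteSpace X]
  (S K : X →L[ℂ] X) (E : Set ℂ), IsCompact E → E.Nonempty → ApproxDecay K → IsCompactOperator K ∧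
  ((∀ z, z ∉ E → z ∈ resolventSet ℂ S) →
   (∃ (C : ℝ) (k : ℕ), ∀ z, z ∉ E → infDist z E ≤ 1 → ‖resolvent S z‖ ≤ C / infDist z E ^ k) →
   ∃ (C : ℝ) (p : ℕ), Pert S K E C p)

/-! ### G. Normal operators -/

/-- G1: non-scalar compact operators have hyperinvariant subspaces (Lomonosov; Hilden's proof) -/
def P_G1 : Prop := ∀ (X : Type) [NormedAddCommGroup X] [NormedSpace ℂ X] [CompleteSpace X]
  (K : X →L[ℂ] X), IsCompactOperator K → ¬ IsScalar K → HasHyp K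

/-- G2: a normal operator with a quasinilpotent compact perturbation is compact -/
def P_G2 : Prop := ∀ (H : Type) [NormedAddCommGroup H] [InnerProductSpace ℂ H] [CompleteSpace H]
  (N K : H →L[ℂ] H) (c : ℂ), IsStarNormal N → IsCompactOperator K → spectrum ℂ (N + K) = {c} →
  IsCompactOperator (N - c • (1 : H →L[ℂ] H))

/-- G3: resolvents of normal operators -/
def P_G3 : Prop := ∀ (H : Type) [NormedAddCommGroup H] [InnerProductSpace ℂ H] [CompleteSpace H]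
  (N : H →L[ℂ] H) (E : Set ℂ), IsStarNormal N → IsCompact E → E.Nonempty → spectrum ℂ N ⊆ E →
  ∀ z, z ∉ E → z ∈ resolventSet ℂ N ∧ ‖resolvent N z‖ ≤ 1 / infDist z E

end Pool.Agent.W402.HI
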