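import Pool.Agent.W402.HI.Defs

/-!
Project HI (helper402), second round: local versions.  Only a part of the spectrum, inside an open set
`U`, has to lie on the rectifiable curve.
-/

set_option autoImplicit false

open Filter Topology MeasureTheory Metric

namespace Pool.Agent.W402.HI

/-- H1: half-plane version of `P_C3` -/
def P_H1 : Prop := ∀ (X : Type) [NormedAddCommGroup X] [NormedSpace ℂ X] [CompleteSpace X]
  (T : X →L[ℂ] X) (γ : ℝ → ℂ) (K : NNReal), LipschitzWith K γ → ∀ a : ℝ,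
  (∀ z ∈ spectrum ℂ T, a < z.re → z ∈ γ '' Set.Icc 0 1) →
  ∀ p ∈ spectrum ℂ T, ∀ q ∈ spectrum ℂ T, a < p.re → q.re < p.re →
  (∃ A : ℕ, ∀ w ∈ γ '' Set.Icc 0 1, a < w.re → ∀ d : ℂ, ‖d‖ = 1 →
    TangentAt (γ '' Set.Icc 0 1) w d →
    ConeGrowth (fun z => ‖resolvent T z‖) w d A) → HasHyp T

/-- H2: local version of `P_C3` -/
def P_H2 : Prop := ∀ (X : Type) [NormedAddCommGroup X] [NormedSpace ℂ X] [CompleteSpace X]
  (T : X →L[ℂ] X) (γ : ℝ → ℂ) (K : NNReal), LipschitzWith K γ → ∀ U : Set ℂ, IsOpen U →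
  (∀ z ∈ spectrum ℂ T, z ∈ U → z ∈ γ '' Set.Icc 0 1) →
  (∃ p ∈ spectrum ℂ T, p ∈ U) → (spectrum ℂ T).Nontrivial →
  (∃ A : ℕ, ∀ w ∈ γ '' Set.Icc 0 1, w ∈ U → ∀ d : ℂ, ‖d‖ = 1 →
    TangentAt (γ '' Set.Icc 0 1) w d →
    ConeGrowth (fun z => ‖resolvent T z‖) w d A) → HasHyp T

/-- H3: growth in terms of the distance implies growth outside cones -/
def P_H3 : Prop := ∀ (N : ℂ → ℝ) (E U : Set ℂ) (C : ℝ) (k : ℕ), IsCompact E → IsOpen U →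
  (∀ z ∈ U, z ∉ E → N z ≤ Real.exp (C / infDist z E ^ k)) →
  ∀ w ∈ E, w ∈ U → ∀ d : ℂ, ‖d‖ = 1 → TangentAt E w d → ConeGrowth N w d k

/-- local version of `Pert` -/
def PertL {X : Type} [NormedAddCommGroup X] [NormedSpace ℂ X] (S K : X →L[ℂ] X) (E U : Set ℂ)
    (C : ℝ) (p : ℕ) : Prop :=
  ∀ δ : ℝ, 0 < δ → δ ≤ 1 → ∃ G : X →L[ℂ] X,
    FiniteDimensional ℂ (LinearMap.range (G : X →ₗ[ℂ] X)) ∧
    (Module.finrank ℂ (LinearMap.range (G : X →ₗ[ℂ] X)) : ℝ) ≤ C / δ ^ p ∧ ‖K - G‖ ≤ C ∧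
    ∀ z ∈ U, δ ≤ infDist z E → z ∈ resolventSet ℂ S ∧ ‖K - G‖ * ‖resolvent S z‖ ≤ 1 / 2 ∧
      ‖resolvent S z‖ ≤ Real.exp (C / δ ^ p)

/-- E3L: local version of `P_E3` -/
def P_E3L : Prop := ∀ (X : Type) [NormedAddCommGroup X] [NormedSpace ℂ X] [CompleteSpace X]
  (S K : X →L[ℂ] X) (E U : Set ℂ) (C : ℝ) (p : ℕ), IsCompact E → IsOpen U → PertL S K E U C p →
  (∀ z ∈ spectrum ℂ (S + K), z ∈ U → z ∈ E) → ∃ A : ℕ, ∀ w ∈ E, w ∈ U → ∀ d : ℂ, ‖d‖ = 1 →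
    TangentAt E w d → ConeGrowth (fun z => ‖resolvent (S + K) z‖) w d A

/-- E5L: local version of `P_E5` -/
def P_E5L : Prop := ∀ (X : Type) [NormedAddCommGroup X] [NormedSpace ℂ X] [CompleteSpace X]
  (S K : X →L[ℂ] X) (E U : Set ℂ), IsCompact E → E.Nonempty → ApproxDecay K →
  (∃ (C : ℝ) (k : ℕ), ∀ z ∈ U, z ∉ E → z ∈ resolventSet ℂ S ∧
    ‖resolvent S z‖ ≤ C / infDist z E ^ k) →
  ∃ (C : ℝ) (p : ℕ), PertL S K E U C p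

end Pool.Agent.W402.HI
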