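import Pool.Agent.W402.HI.Asm2
import Pool.Agent.W402.HI.Asm3
import Pool.Agent.W816.HI.A1
import Pool.Agent.W261.HI.A3
import Pool.Agent.W816.HI.A4
import Pool.Agent.W816.HI.B1
import Pool.Agent.W402.HI.C1
import Pool.Agent.W613.HI.C2
import Pool.Agent.W778.HI.D1
import Pool.Agent.W778.HI.D2
import Pool.Agent.W85.HI.E1
import Pool.Agent.W366.HI.E2
import Pool.Agent.W324.HI.E4
import Pool.Agent.W991.HI.E5
import Pool.Agent.W577.HI.G1
import Pool.Agent.W806.HI.G2
import Pool.Agent.W32.HI.G3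
import Pool.Agent.W287.HI.H1
import Pool.Agent.W287.HI.H2
import Pool.Agent.W340.HI.H3
import Pool.Agent.W320.HI.E3L
import Pool.Agent.W991.HI.E5L

/-!
Project HI: all parts together.
-/

set_option autoImplicit false

open Filter Topology MeasureTheory Metric

namespace Pool.Agent.W402.HI.Final

theorem hA : P_A4 :=
  Pool.Agent.W816.HI.mainA4 Pool.Agent.W816.HI.mainA2
    (Pool.Agent.W261.HI.A3.main Pool.Agent.W816.HI.mainA1)

theorem hB : P_B1 := Pool.Agent.W816.HI.mainB1

theorem hC : P_C1 := Pool.Agent.W402.HI.C1.main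

theorem hC2 : P_C2 := Pool.Agent.W613.HI.main hC

theorem hH1 : P_H1 := Pool.Agent.W287.HI.H1.main hA hB hC hC2

theorem hH2 : P_H2 := Pool.Agent.W287.HI.H2.main hH1 hB

theorem hH3 : P_H3 := Pool.Agent.W340.HI.H3.main

theorem hD : P_D2 := Pool.Agent.W778.HI.D2.main Pool.Agent.W778.HI.D1.main

theorem hE : P_E2 := Pool.Agent.W366.HI.main Pool.Agent.W85.HI.E1.main

theorem hE3 : P_E3L := W320.HI.main hD hE

end Pool.Agent.W402.HI.Final
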